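import Pool.Agent.Helper5.DR.Defs

/-!
# Project DR: the smoothed sums are linear in the values `f n`, `1 ≤ n ≤ Y (r+1)`
-/

set_option autoImplicit false

namespace Pool.Agent.Helper96.DR

open Finset MeasureTheory Filter Topology Pool.Agent.Helper5.RM Pool.Agent.Helper96.AF Pool.Agent.Helper66.LW Pool.Agent.IT
open Pool.Agent.DR

/-- the weights of the smoothed sums -/
noncomputable def WW (K : Ker) (r i n : ℕ) : ℂ :=
  ∫ v in (Vr r)..(2 * Vr r), (if n ≤ ⌊Real.exp v⌋₊ then (Real.exp (-(v / 2)) : ℂ) else 0) * (kf K r (Ur r + i) v : ℂ)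

private theorem intW (K : Ker) (r i n : ℕ) : IntervalIntegrable (fun v =>
    (if n ≤ ⌊Real.exp v⌋₊ then (Real.exp (-(v / 2)) : ℂ) else 0) * (kf K r (Ur r + i) v : ℂ)) volume (Vr r) (2 * Vr r) := by
  have hV := Vr_pos r
  have h1 : IntervalIntegrable (fun v : ℝ => (if n ≤ ⌊Real.exp v⌋₊ then (Real.exp (-(v / 2)) : ℂ) else 0)) volume (Vr r) (2 * Vr r) := by
    rw [intervalIntegrable_iff]
    refine Measure.integrableOn_of_bounded (M := 1) ?_ ?_ ?_
    · rw [Set.uIoc_of_le (by linarith)]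
      exact measure_Ioc_lt_top.ne
    · refine Measurable.aestronglyMeasurable ?_
      refine Measurable.ite ?_ (by fun_prop) measurable_const
      exact measurableSet_le measurable_const (Nat.measurable_floor.comp Real.measurable_exp)
    · refine (ae_restrict_iff' measurableSet_uIoc).2 (Filter.Eventually.of_forall fun v hv => ?_)
      rw [Set.uIoc_of_le (by linarith)] at hv
      split_ifs
      · rw [Complex.norm_real, Real.norm_eq_abs, abs_of_pos (Real.exp_pos _), Real.exp_le_one_iff]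
        linarith [hv.1]
      · rw [norm_zero]
        exact zero_le_one
  exact h1.mul_continuousOn (Complex.continuous_ofReal.comp (continuous_kf K r _)).continuousOn

theorem SS_eq (K : Ker) (r i : ℕ) (f : ℕ → ℂ) : SS K r f i = ∑ n ∈ Finset.Icc 1 (Y (r + 1)), f n * WW K r i n := by
  have hV := Vr_pos r
  unfold SS WW
  have h1 : ∀ v ∈ Set.uIcc (Vr r) (2 * Vr r), Ac f v * (kf K r (Ur r + i) v : ℂ) = ∑ n ∈ Finset.Icc 1 (Y (r + 1)),
      f n * ((if n ≤ ⌊Real.exp v⌋₊ then (Real.exp (-(v / 2)) : ℂ) else 0) * (kf K r (Ur r + i) v : ℂ)) := by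
    intro v hv
    rw [Set.uIcc_of_le (by linarith)] at hv
    have hfl : ⌊Real.exp v⌋₊ ≤ Y (r + 1) := by
      apply Nat.floor_le_of_le
      rw [← exp_two_Vr]
      exact Real.exp_le_exp.2 hv.2
    have h2 : Hc f ⌊Real.exp v⌋₊ = ∑ n ∈ Finset.Icc 1 (Y (r + 1)), if n ≤ ⌊Real.exp v⌋₊ then f n else 0 := by
      unfold Hc
      rw [← Finset.sum_filter]
      congr 1
      ext n
      rw [Finset.mem_Icc, Finset.mem_filter, Finset.mem_Icc]
      constructor
      · rintro ⟨a, b⟩
        exact ⟨⟨a, b.trans hfl⟩, b⟩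
      · rintro ⟨⟨a, _⟩, b⟩
        exact ⟨a, b⟩
    unfold Ac
    rw [h2, Finset.mul_sum, Finset.sum_mul]
    refine Finset.sum_congr rfl fun n _ => ?_
    split_ifs
    · ring
    · ring
  rw [intervalIntegral.integral_congr h1, intervalIntegral.integral_finsetSum]
  · refine Finset.sum_congr rfl fun n _ => ?_
    rw [intervalIntegral.integral_const_mul]
  · intro n _
    exact (intW K r i n).const_mul _

theorem SS_congr {K : Ker} {r i : ℕ} {f g : ℕ → ℂ} (h : ∀ n : ℕ, 1 ≤ n → n ≤ Y (r + 1) → f n = g n) : SS K r f i = SS K r g i := by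
  rw [SS_eq, SS_eq]
  refine Finset.sum_congr rfl fun n hn => ?_
  rw [Finset.mem_Icc] at hn
  rw [h n hn.1 hn.2]

theorem SS_smul (K : Ker) (r i : ℕ) (c : ℂ) (f : ℕ → ℂ) : SS K r (fun n => c * f n) i = c * SS K r f i := by
  rw [SS_eq, SS_eq, Finset.mul_sum]
  exact Finset.sum_congr rfl fun n _ => by ring

theorem SS_meas {Ω : Type} [MeasurableSpace Ω] (K : Ker) (r i : ℕ) {f : Ω → ℕ → ℂ} (hf : ∀ n, Measurable fun ω => f ω n) :
    Measurable fun ω => SS K r (f ω) i := by
  have : (fun ω => SS K r (f ω) i) = fun ω => ∑ n ∈ Finset.Icc 1 (Y (r + 1)), f ω n * WW K r i n := by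
    funext ω
    exact SS_eq K r i (f ω)
  rw [this]
  exact Finset.measurable_fun_sum _ fun n _ => (hf n).mul_const _

end Pool.Agent.Helper96.DR
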