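import Pool.Agent.Helper96.DR.P2
import Pool.Agent.Helper11.DR.EndPsi

/-!
# Project DR, part A1: the density theorem for all primitive real characters
-/

set_option autoImplicit false

namespace Pool.Agent.Helper96.DR

open Finset MeasureTheory Filter Topology Pool.Agent.Helper5.RM Pool.Agent.Helper96.AF Pool.Agent.QT Pool.Agent.Q3psi
open Pool.Agent.Helper11.Q3

theorem core_M (j : Fin 4) (σ : ℝ) (hσ : σ = 1 ∨ σ = -1) : Pool.Agent.Helper11.DR.Core (Pool.Agent.Helper11.DR.BM j σ) := by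
  intro δ η hδ hη
  obtain ⟨r0, C0, hC0, h⟩ := fin_MP j hσ hδ hη
  refine ⟨r0, C0, fun r hr Q hQ => ?_⟩
  have hN : 0 < (OS Q).card := by
    have h1 := Pool.Agent.Helper11.Q3.j1d Q
    have h2 : (1 : ℝ) ≤ ((Y (150 * r) : ℕ) : ℝ) ^ 10 := one_le_pow₀ (by exact_mod_cast Y_pos (150 * r))
    have h3 : (0 : ℝ) < Q := lt_of_lt_of_le (by positivity) hQ
    have h4 : (0 : ℝ) < (OS Q).card := by linarith [div_pos h3 (by norm_num : (0 : ℝ) < 8)]
    exact_mod_cast h4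
  have hP := Pool.Agent.Helper11.DR.PQ_prob hN
  refine (measureReal_mono (fun q hq => ?_) (measure_ne_top _ _)).trans (h r hr Q hQ)
  obtain ⟨N, h0, χ, hN, h1⟩ := hq
  subst hN
  exact ⟨h0, χ, h1⟩

theorem ljq_eq (j : Fin 4) (q : ℕ) : Pool.Agent.Helper11.DR.ljq j q = ljq j q := by
  funext n
  unfold Pool.Agent.Helper11.DR.ljq ljq lam
  push_cast
  rfl

theorem core_L (j : Fin 4) (σ : ℝ) (hσ : σ = 1 ∨ σ = -1) : Pool.Agent.Helper11.DR.Core (Pool.Agent.Helper11.DR.BL j σ) := by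
  intro δ η hδ hη
  obtain ⟨r0, C0, hC0, h⟩ := fin_LP j hσ hδ hη
  refine ⟨r0, C0, fun r hr Q hQ => ?_⟩
  have hN : 0 < (OS Q).card := by
    have h1 := Pool.Agent.Helper11.Q3.j1d Q
    have h2 : (1 : ℝ) ≤ ((Y (150 * r) : ℕ) : ℝ) ^ 10 := one_le_pow₀ (by exact_mod_cast Y_pos (150 * r))
    have h3 : (0 : ℝ) < Q := lt_of_lt_of_le (by positivity) hQ
    have h4 : (0 : ℝ) < (OS Q).card := by linarith [div_pos h3 (by norm_num : (0 : ℝ) < 8)]
    exact_mod_cast h4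
  have hP := Pool.Agent.Helper11.DR.PQ_prob hN
  refine (measureReal_mono (fun q hq => ?_) (measure_ne_top _ _)).trans (h r hr Q hQ)
  obtain ⟨N, h0, χ, hN, h1⟩ := hq
  subst hN
  rw [ljq_eq] at h1
  exact ⟨h0, χ, h1⟩

end Pool.Agent.Helper96.DR
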