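import Pool.Agent.Helper96.DR.T0
import Pool.Agent.Helper66.LW.W

/-!
# Project DR, block T0 (one twist) and block TR
-/

set_option autoImplicit false

namespace Pool.Agent.Helper96.DR

open Finset MeasureTheory Filter Topology Pool.Agent.Helper5.RM Pool.Agent.Helper96.AF Pool.Agent.Helper66.LW Pool.Agent.IT
open Pool.Agent.DR

theorem cmu_one : CMU (fun _ => (1 : ℂ)) := ⟨rfl, fun _ _ => by norm_num, fun _ _ => by norm_num⟩

theorem gt_eq (T1 T2 : Finset ℕ) {n : ℕ} (hn : n ≠ 0) : gt T1 T2 n =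
    n.factorization.prod fun p k => ((sg T1 p : ℂ) * (if p ∈ T2 then Complex.I else 1)) ^ k := by
  unfold gt
  rw [if_neg hn, Finsupp.prod, Nat.support_factorization]

theorem cmu_gt (T1 T2 : Finset ℕ) : CMU (gt T1 T2) := by
  refine ⟨?_, ?_, ?_⟩
  · rw [gt_eq T1 T2 one_ne_zero]
    simp
  · intro m n
    rcases eq_or_ne m 0 with rfl | hm
    · simp [gt]
    rcases eq_or_ne n 0 with rfl | hn
    · simp [gt]
    rw [gt_eq T1 T2 (mul_ne_zero hm hn), gt_eq T1 T2 hm, gt_eq T1 T2 hn, Nat.factorization_mul hm hn]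
    exact Finsupp.prod_add_index' (fun _ => pow_zero _) fun _ _ _ => pow_add _ _ _
  · intro n hn
    rw [gt_eq T1 T2 (by omega), Finsupp.prod, norm_prod]
    refine Finset.prod_eq_one fun p _ => ?_
    rw [norm_pow, norm_mul]
    have h1 : ‖(sg T1 p : ℂ)‖ = 1 := by
      unfold sg
      split_ifs <;> simp
    have h2 : ‖(if p ∈ T2 then Complex.I else 1 : ℂ)‖ = 1 := by
      split_ifs <;> simp
    rw [h1, h2, one_mul, one_pow]

theorem Hc_mul (c : ℂ) (f : ℕ → ℂ) (n : ℕ) : Hc (fun m => c * f m) n = c * Hc f n := by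
  unfold Hc
  rw [Finset.mul_sum]

/-- from the pointwise bound to the smoothed sums, with a constant factor -/
theorem bd_mul (hBD : StmtBD) (K : Ker) : ∃ C : ℝ, 0 < C ∧ ∃ r0 : ℕ, ∀ r : ℕ, r0 ≤ r → ∀ (c : ℂ) (f : ℕ → ℂ) (lam : ℝ), 0 ≤ lam →
    (∀ n : ℕ, 1 ≤ n → n ≤ Y (r + 1) → (c * Hc f n).re ≤ lam * Real.sqrt n) → ∀ i : ℕ, (i : ℝ) ≤ 1 / sr r →
    (c * SS K r f i).re ≤ C * lam := by
  obtain ⟨C, hC, r0, h⟩ := hBD K
  refine ⟨C, hC, r0, fun r hr c f lam hlam hf i hi => ?_⟩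
  have h1 := h r hr (fun n => c * f n) lam hlam (fun n hn1 hn2 => by rw [Hc_mul]; exact hf n hn1 hn2) i hi
  rwa [SS_smul] at h1

/-- block T0 -/
theorem t0 {a α : ℕ → ℂ} (hL : LogC a α) (hBD : StmtBD) (hAPX : StmtAPX a α) (hSUB : StmtSUB a α) (hCHF : StmtCHF a α)
    (hSMO : StmtSMO) : StmtT0 a α := by
  intro K η hη
  obtain ⟨C, hC, r1, hr1⟩ := bd_mul hBD K
  obtain ⟨r2, hr2⟩ := hAPX K (η / 4) (by linarith)
  obtain ⟨r3, hr3⟩ := hSUB hL (η / 4) (by linarith)
  obtain ⟨r4, hr4⟩ := hCHF hL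
  obtain ⟨r5, hr5⟩ := t0_core hSMO K (η / 4) (by linarith)
  refine ⟨C, hC, max (max r1 r2) (max r3 (max r4 r5)), fun r hr Ω _ P χ Tw hF T1 T2 hT2 c hc lam hlam => ?_⟩
  have hra : r1 ≤ r := ((le_max_left _ _).trans (le_max_left _ _)).trans hr
  have hrb : r2 ≤ r := ((le_max_right _ _).trans (le_max_left _ _)).trans hr
  have hrc : r3 ≤ r := ((le_max_left _ _).trans (le_max_right _ _)).trans hr
  have hrd : r4 ≤ r := (((le_max_left _ _).trans (le_max_right _ _)).trans (le_max_right _ _)).trans hr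
  have hre : r5 ≤ r := (((le_max_right _ _).trans (le_max_right _ _)).trans (le_max_right _ _)).trans hr
  have hP := hF.prob
  have hA := hr2 r hrb Ω P χ Tw hF (fun _ => 1) cmu_one
  simp only [mul_one] at hA
  have hA' := hr2 r hrb Ω P χ Tw hF (gt T1 T2) (cmu_gt T1 T2)
  have hB := hr3 r hrc Ω P χ Tw hF
  have h1 := hr5 r hre a α Ω Ω P P χ (fun ω n => χ ω n * gt T1 T2 n) hP hP hF.meas (fun n => (hF.meas n).mul_const _) (η / 4)
    hA hB hA' (fun ξ hξ => hr4 r hrd Ω P χ Tw hF T1 T2 hT2 ξ hξ) c hc (C * lam)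
  have h2 : P.real {ω | ∀ n : ℕ, 1 ≤ n → n ≤ Y (r + 1) → (c * Hc (fun n => a n * χ ω n) n).re ≤ lam * Real.sqrt n} ≤
      P.real {ω | ∀ i : ℕ, (i : ℝ) ≤ 1 / sr r → (c * SS K r (fun n => a n * χ ω n) i).re ≤ C * lam} :=
    measureReal_mono (fun ω hω i hi => hr1 r hra c _ lam hlam hω i hi) (measure_ne_top _ _)
  linarith

theorem meas_SS_set {Ω : Type} [MeasurableSpace Ω] (K : Ker) (r : ℕ) {f : Ω → ℕ → ℂ} (hf : ∀ n, Measurable fun ω => f ω n) (L : ℝ) :
    MeasurableSet {ω | ∀ i : ℕ, (i : ℝ) ≤ 1 / sr r → (SS K r (f ω) i).re ≤ L} := by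
  have h1 : {ω | ∀ i : ℕ, (i : ℝ) ≤ 1 / sr r → (SS K r (f ω) i).re ≤ L} =
      ⋂ (i : ℕ) (_ : (i : ℝ) ≤ 1 / sr r), {ω | (SS K r (f ω) i).re ≤ L} := by
    ext y
    simp
  rw [h1]
  exact MeasurableSet.iInter fun i => MeasurableSet.iInter fun _ =>
    measurableSet_le (Complex.measurable_re.comp (SS_meas K r i hf)) measurable_const

theorem Y_mono {r s : ℕ} (h : r ≤ s) : Y r ≤ Y s := by
  unfold Y
  exact Nat.pow_le_pow_right (by norm_num) (Nat.pow_le_pow_right (by norm_num) h)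

/-- averages of probabilities are probabilities of averages -/
theorem av_real {Ω : Type} [MeasurableSpace Ω] {P : Measure Ω} [IsProbabilityMeasure P] (S : Finset ℕ) (E : Finset ℕ → Finset ℕ → Set Ω)
    (hE : ∀ T1 T2, MeasurableSet (E T1 T2)) :
    av S (fun T2 => av S (fun T1 => P.real (E T1 T2))) = ∫ ω, av S (fun T2 => av S (fun T1 => (E T1 T2).indicator 1 ω)) ∂P := by
  have hi : ∀ T1 T2, Integrable ((E T1 T2).indicator (1 : Ω → ℝ)) P := fun T1 T2 =>
    (integrable_const (1 : ℝ)).indicator (hE T1 T2)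
  have h1 : ∀ T1 T2, P.real (E T1 T2) = ∫ ω, (E T1 T2).indicator (1 : Ω → ℝ) ω ∂P := by
    intro T1 T2
    rw [integral_indicator_one (hE T1 T2)]
  unfold av
  rw [integral_div, integral_finsetSum]
  · congr 1
    refine Finset.sum_congr rfl fun T2 _ => ?_
    beta_reduce
    rw [integral_div, integral_finsetSum]
    · congr 1
      exact Finset.sum_congr rfl fun T1 _ => h1 T1 T2
    · intro T1 _
      exact hi T1 T2
  · intro T2 _
    exact (integrable_finsetSum _ fun T1 _ => hi T1 T2).div_const _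

/-- block TR -/
theorem tR {f : (ℕ → ℝ) → Finset ℕ → ℕ → ℂ} {a α : ℕ → ℂ} (hT0 : StmtT0 a α) (hGS : StmtGS f) (hMOD : StmtMOD f a) : StmtTR a := by
  classical
  intro δ η hδ hη
  obtain ⟨K⟩ := ker_nonempty
  obtain ⟨C, hC, r1, hr1⟩ := hT0 K (η / 2) (by linarith)
  obtain ⟨r2, hr2⟩ := hGS K (min δ (1 / 4)) (η / 2) (C + 3) (by positivity) (by linarith) (by linarith)
  refine ⟨max (max r1 r2) 1, fun r hr Ω _ P χ hF => ?_⟩
  have hra : r1 ≤ r := ((le_max_left _ _).trans (le_max_left _ _)).trans hr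
  have hrb : r2 ≤ r := ((le_max_right _ _).trans (le_max_left _ _)).trans hr
  have hrc : 1 ≤ r := (le_max_right _ _).trans hr
  have hrc' : (1 : ℝ) ≤ r := by exact_mod_cast hrc
  have hP := hF.prob
  set lam : ℝ := (r : ℝ) ^ (1 / 4 - δ) with hlam
  have hlam0 : 0 ≤ lam := by positivity
  set S := PP (Y (r + 1)) with hS
  set E0 : Set Ω := {ω | ∀ n : ℕ, 1 ≤ n → n ≤ Y (r + 1) → (Hc (fun n => a n * χ ω n) n).re ≤ lam * Real.sqrt n} with hE0
  set E : Finset ℕ → Finset ℕ → Set Ω := fun T1 T2 =>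
    {ω | ∀ i : ℕ, (i : ℝ) ≤ 1 / sr r → (SS K r (fun n => a n * (χ ω n * gt T1 T2 n)) i).re ≤ C * lam + 3} with hE
  have hEm : ∀ T1 T2, MeasurableSet (E T1 T2) := fun T1 T2 =>
    meas_SS_set K r (fun n => ((hF.meas n).mul_const _).const_mul _) _
  have h1 : ∀ T1 T2, P.real E0 ≤ P.real (E T1 T2) + η / 2 := by
    intro T1 T2
    have h2 := hr1 r hra Ω P χ Set.univ hF T1 T2 (Set.mem_univ _) 1 (by norm_num) lam hlam0
    simp only [one_mul] at h2
    exact h2
  have hav : P.real E0 ≤ av S (fun T2 => av S (fun T1 => P.real (E T1 T2))) + η / 2 := by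
    have hpos : (0 : ℝ) < 2 ^ S.card := by positivity
    have h2 : ∀ T2, P.real E0 - η / 2 ≤ av S (fun T1 => P.real (E T1 T2)) := by
      intro T2
      unfold av
      rw [le_div_iff₀ hpos]
      calc (P.real E0 - η / 2) * 2 ^ S.card = ∑ T1 ∈ S.powerset, (P.real E0 - η / 2) := by
            rw [Finset.sum_const, Finset.card_powerset, nsmul_eq_mul]
            push_cast
            ring
        _ ≤ ∑ T1 ∈ S.powerset, P.real (E T1 T2) := Finset.sum_le_sum fun T1 _ => by linarith [h1 T1 T2]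
    have h3 : P.real E0 - η / 2 ≤ av S (fun T2 => av S (fun T1 => P.real (E T1 T2))) := by
      rw [av, le_div_iff₀ hpos]
      calc (P.real E0 - η / 2) * 2 ^ S.card = ∑ T2 ∈ S.powerset, (P.real E0 - η / 2) := by
            rw [Finset.sum_const, Finset.card_powerset, nsmul_eq_mul]
            push_cast
            ring
        _ ≤ ∑ T2 ∈ S.powerset, av S (fun T1 => P.real (E T1 T2)) := Finset.sum_le_sum fun T2 _ => h2 T2
    linarith
  rw [av_real S E hEm] at hav
  -- the model for each `ω`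
  have hpt : ∀ ω, av S (fun T2 => av S (fun T1 => (E T1 T2).indicator (1 : Ω → ℝ) ω)) ≤ η / 2 := by
    intro ω
    obtain ⟨ph, hph⟩ := hMOD (χ ω) (Y (r + 1)) (hF.one ω) (hF.mul ω) fun n hn1 hn2 => hF.norm ω n hn1 (hn2.trans (Y_mono (by omega)))
    refine le_trans ?_ (hr2 r hrb ph)
    unfold pr
    unfold av
    have hpos : (0 : ℝ) < 2 ^ S.card := by positivity
    refine div_le_div_of_nonneg_right (Finset.sum_le_sum fun T2 _ => ?_) hpos.le
    refine div_le_div_of_nonneg_right (Finset.sum_le_sum fun T1 _ => ?_) hpos.le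
    by_cases hω : ω ∈ E T1 T2
    · rw [Set.indicator_of_mem hω, if_pos]
      · rfl
      intro i hi
      have h2 : SS K r (f (tt ph T2) T1) i = SS K r (fun n => a n * (χ ω n * gt T1 T2 n)) i :=
        SS_congr fun n hn1 hn2 => hph T1 T2 n hn1 hn2
      rw [h2]
      refine (hω i hi).trans ?_
      have h3 : lam ≤ (r : ℝ) ^ (1 / 4 - min δ (1 / 4)) :=
        Real.rpow_le_rpow_of_exponent_le hrc' (by linarith [min_le_left δ (1 / 4)])
      have h4 : (1 : ℝ) ≤ (r : ℝ) ^ (1 / 4 - min δ (1 / 4)) := Real.one_le_rpow hrc' (by linarith [min_le_right δ (1 / 4)])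
      nlinarith
    · rw [Set.indicator_of_notMem hω]
      split_ifs
      · exact zero_le_one
      · exact le_rfl
  have hint : ∫ ω, av S (fun T2 => av S (fun T1 => (E T1 T2).indicator (1 : Ω → ℝ) ω)) ∂P ≤ η / 2 := by
    have h2 : ∫ ω, av S (fun T2 => av S (fun T1 => (E T1 T2).indicator (1 : Ω → ℝ) ω)) ∂P ≤ ∫ _ω : Ω, η / 2 ∂P := by
      refine integral_mono_of_nonneg (Filter.Eventually.of_forall fun ω => ?_) (integrable_const _) (Filter.Eventually.of_forall hpt)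
      show 0 ≤ av S (fun T2 => av S (fun T1 => (E T1 T2).indicator (1 : Ω → ℝ) ω))
      unfold av
      refine div_nonneg (Finset.sum_nonneg fun T2 _ => div_nonneg (Finset.sum_nonneg fun T1 _ => ?_) (by positivity)) (by positivity)
      exact Set.indicator_nonneg (fun _ _ => zero_le_one) _
    rwa [integral_const, smul_eq_mul, probReal_univ, one_mul] at h2
  linarith

end Pool.Agent.Helper96.DR
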