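import Pool.Agent.Helper96.DR.APX

/-!
# Project DR, part A1: short Dirichlet polynomials with small coefficients are small, for all points at once
-/

set_option autoImplicit false

namespace Pool.Agent.Helper96.DR

open Finset MeasureTheory Filter Topology Pool.Agent.Helper5.RM Pool.Agent.Helper96.AF Pool.Agent.Helper66.LW Pool.Agent.IT
open Pool.Agent.DR

theorem short_core (D η : ℝ) (hD : 0 ≤ D) (hη : 0 < η) : ∃ r0 : ℕ, ∀ r : ℕ, r0 ≤ r →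
    ∀ (Ω : Type) [MeasurableSpace Ω] (P : Measure Ω) (χ : Ω → ℕ → ℂ), IsProbabilityMeasure P → (∀ n, Measurable fun ω => χ ω n) →
    (∀ ω n, 1 ≤ n → n ≤ Y (150 * r) → ‖χ ω n‖ ≤ 1) →
    (∀ (γ : ℕ → ℂ) (c : ℝ), 0 ≤ c → (∀ n : ℕ, 1 ≤ n → ‖γ n‖ ≤ c / Real.sqrt n) → ∀ N : ℕ, 1 ≤ N → N ^ 3 ≤ Y (150 * r) →
      ∫ ω, ‖∑ n ∈ Finset.Icc 1 N, γ n * χ ω n‖ ^ 2 ∂P ≤ D * (c ^ 2 * (2 + Real.log N) ^ 4)) →
    ∀ γ : ℕ → ℕ → ℂ, (∀ i : ℕ, (i : ℝ) ≤ 1 / sr r → ∀ n : ℕ, 1 ≤ n → ‖γ i n‖ ≤ 1 / (Vr r ^ 7 * Real.sqrt n)) →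
    P.real {ω | ∃ i : ℕ, (i : ℝ) ≤ 1 / sr r ∧ 1 < ‖∑ n ∈ Finset.Icc 1 (Y (2 * r + 2)), γ i n * χ ω n‖} ≤ η := by
  obtain ⟨r2, hr2⟩ := card_i_le
  obtain ⟨r3, hr3⟩ : ∃ r3 : ℕ, ∀ r : ℕ, r3 ≤ r → D * 2 ^ 27 / 2 ^ r ≤ η := by
    have h1 : Tendsto (fun r : ℕ => D * 2 ^ 27 / (2 : ℝ) ^ r) atTop (𝓝 0) :=
      tendsto_const_nhds.div_atTop (tendsto_pow_atTop_atTop_of_one_lt (by norm_num))
    obtain ⟨r3, h3⟩ := eventually_atTop.1 (h1.eventually_le_const hη)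
    exact ⟨r3, h3⟩
  refine ⟨max r2 (max r3 1), fun r hr Ω _ P χ hP hm hn hms γ hγ => ?_⟩
  have hrb : r2 ≤ r := (le_max_left _ _).trans hr
  have hrc : r3 ≤ r := ((le_max_left _ _).trans (le_max_right _ _)).trans hr
  have hrd : 1 ≤ r := ((le_max_right _ _).trans (le_max_right _ _)).trans hr
  have hV := Vr_pos r
  have hN1 : 1 ≤ Y (2 * r + 2) := Y_pos _
  have hN3 : Y (2 * r + 2) ≤ Y (150 * r) := (Nat.le_self_pow (by norm_num) _).trans (Y_cube_le hrd)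
  have key : ∀ i : ℕ, (i : ℝ) ≤ 1 / sr r → P.real {ω | 1 < ‖∑ n ∈ Finset.Icc 1 (Y (2 * r + 2)), γ i n * χ ω n‖} ≤
      D * 2 ^ 26 / (2 ^ r) ^ 6 := by
    intro i hi
    have h3 : ∀ n : ℕ, 1 ≤ n → ‖γ i n‖ ≤ (1 / Vr r ^ 7) / Real.sqrt n := by
      intro n hn1
      rw [div_div]
      exact hγ i hi n hn1
    have h4 := hms (γ i) (1 / Vr r ^ 7) (by positivity) h3 (Y (2 * r + 2)) hN1 (Y_cube_le hrd)
    have hSm : Measurable fun ω => ∑ n ∈ Finset.Icc 1 (Y (2 * r + 2)), γ i n * χ ω n :=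
      Finset.measurable_fun_sum _ fun n _ => (hm n).const_mul _
    have hSb : ∀ ω, ‖∑ n ∈ Finset.Icc 1 (Y (2 * r + 2)), γ i n * χ ω n‖ ≤ ∑ n ∈ Finset.Icc 1 (Y (2 * r + 2)), ‖γ i n‖ := by
      intro ω
      refine (norm_sum_le _ _).trans (Finset.sum_le_sum fun n hn' => ?_)
      rw [Finset.mem_Icc] at hn'
      rw [norm_mul]
      exact mul_le_of_le_one_right (norm_nonneg _) (hn ω n hn'.1 (hn'.2.trans hN3))
    have h5 := markov_sq (P := P) hSm hSb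
    have h6 : P.real {ω | 1 < ‖∑ n ∈ Finset.Icc 1 (Y (2 * r + 2)), γ i n * χ ω n‖} ≤
        P.real {ω | 1 ≤ ‖∑ n ∈ Finset.Icc 1 (Y (2 * r + 2)), γ i n * χ ω n‖ ^ 2} := by
      refine measureReal_mono (fun ω hω => ?_) (measure_ne_top _ _)
      rw [Set.mem_ofPred_eq] at hω
      rw [Set.mem_ofPred_eq]
      nlinarith
    refine h6.trans (h5.trans (h4.trans ?_))
    have h7 : Real.log (Y (2 * r + 2) : ℕ) ≤ 4 * (2 ^ r) ^ 2 := by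
      rw [log_Y]
      have h8 := Real.log_two_lt_d9
      have h9 : (2 : ℝ) ^ (2 * r + 2) = 4 * (2 ^ r) ^ 2 := by rw [← pow_mul, pow_add]; ring
      rw [h9]
      have h10 : (0 : ℝ) < 4 * (2 ^ r) ^ 2 := by positivity
      nlinarith
    have h8 : (1 : ℝ) ≤ 2 ^ r := one_le_pow₀ (by norm_num)
    have h9 := le_Vr r
    have h11 : 0 ≤ Real.log (Y (2 * r + 2) : ℕ) := Real.log_natCast_nonneg _
    have h10 : 2 + Real.log (Y (2 * r + 2) : ℕ) ≤ 8 * (2 ^ r) ^ 2 := by nlinarith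
    have h12 : (2 + Real.log (Y (2 * r + 2) : ℕ)) ^ 4 ≤ (8 * (2 ^ r) ^ 2) ^ 4 := pow_le_pow_left₀ (by linarith) h10 4
    have h13 : (1 / Vr r ^ 7) ^ 2 ≤ (2 / 2 ^ r) ^ 14 := by
      have h14 : 1 / Vr r ≤ 2 / 2 ^ r := by
        rw [div_le_div_iff₀ hV (by positivity)]
        linarith
      calc (1 / Vr r ^ 7) ^ 2 = (1 / Vr r) ^ 14 := by ring
        _ ≤ (2 / 2 ^ r) ^ 14 := pow_le_pow_left₀ (by positivity) h14 14
    calc D * ((1 / Vr r ^ 7) ^ 2 * (2 + Real.log (Y (2 * r + 2) : ℕ)) ^ 4) ≤ D * ((2 / 2 ^ r) ^ 14 * (8 * (2 ^ r) ^ 2) ^ 4) := by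
          gcongr
      _ = D * 2 ^ 26 / (2 ^ r) ^ 6 := by
          have h15 : (2 : ℝ) ^ r ≠ 0 := by positivity
          field_simp
          ring
  set Bad : ℕ → Set Ω := fun i => {ω | 1 < ‖∑ n ∈ Finset.Icc 1 (Y (2 * r + 2)), γ i n * χ ω n‖} with hBad
  set I : Finset ℕ := (Finset.range (2 ^ r + 1)).filter (fun i => (i : ℝ) ≤ 1 / sr r) with hI
  have hsub : {ω | ∃ i : ℕ, (i : ℝ) ≤ 1 / sr r ∧ 1 < ‖∑ n ∈ Finset.Icc 1 (Y (2 * r + 2)), γ i n * χ ω n‖} ⊆ ⋃ i ∈ I, Bad i := by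
    rintro ω ⟨i, hi, hω⟩
    rw [Set.mem_iUnion₂]
    refine ⟨i, ?_, hω⟩
    rw [hI, Finset.mem_filter, Finset.mem_range]
    exact ⟨Nat.lt_succ_of_le (hr2 r hrb i hi), hi⟩
  have hcard : (I.card : ℝ) ≤ 2 * 2 ^ r := by
    have h1' : I.card ≤ 2 ^ r + 1 := (Finset.card_filter_le _ _).trans (by rw [Finset.card_range])
    have h2' : (I.card : ℝ) ≤ 2 ^ r + 1 := by exact_mod_cast h1'
    have h3' : (1 : ℝ) ≤ 2 ^ r := one_le_pow₀ (by norm_num)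
    linarith
  calc P.real _ ≤ P.real (⋃ i ∈ I, Bad i) := measureReal_mono hsub (measure_ne_top _ _)
    _ ≤ ∑ i ∈ I, P.real (Bad i) := measureReal_biUnion_finset_le _ _
    _ ≤ ∑ i ∈ I, D * 2 ^ 26 / (2 ^ r) ^ 6 := Finset.sum_le_sum fun i hi => key i (Finset.mem_filter.1 hi).2
    _ = I.card * (D * 2 ^ 26 / (2 ^ r) ^ 6) := by rw [Finset.sum_const, nsmul_eq_mul]
    _ ≤ 2 * 2 ^ r * (D * 2 ^ 26 / (2 ^ r) ^ 6) := by gcongr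
    _ = D * 2 ^ 27 / (2 ^ r) ^ 5 := by
        have h15 : (2 : ℝ) ^ r ≠ 0 := by positivity
        field_simp
    _ ≤ D * 2 ^ 27 / 2 ^ r := by
        apply div_le_div_of_nonneg_left (by positivity) (by positivity)
        exact le_self_pow₀ (one_le_pow₀ (by norm_num)) (by norm_num)
    _ ≤ η := hr3 r hrc

end Pool.Agent.Helper96.DR
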