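import Pool.Agent.Helper96.DR.T0b
import Pool.Agent.Helper96.DR.Short
import Pool.Agent.Helper11.DR.SER
import Pool.Agent.Helper5.DR.SMO
import Pool.Agent.Helper5.DR.CHF3
import Pool.Agent.Helper52.DR.LOG
import Pool.Agent.Helper95.TF.BDG3

/-!
# Project DR, part A1: the transfer for two families of real functions
-/

set_option autoImplicit false

namespace Pool.Agent.Helper96.DR

open Finset MeasureTheory Filter Topology Pool.Agent.Helper5.RM Pool.Agent.Helper96.AF Pool.Agent.Helper66.LW Pool.Agent.IT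
open Pool.Agent.DR Pool.Agent.QT

/-- the mean square bound, constant `D` -/
def MS {Ω : Type} [MeasurableSpace Ω] (P : Measure Ω) (χ : Ω → ℕ → ℂ) (Z : ℕ) (D : ℝ) : Prop :=
  ∀ (γ : ℕ → ℂ) (c : ℝ), 0 ≤ c → (∀ n : ℕ, 1 ≤ n → ‖γ n‖ ≤ c / Real.sqrt n) → ∀ N : ℕ, 1 ≤ N → N ^ 3 ≤ Z →
    ∫ ω, ‖∑ n ∈ Finset.Icc 1 N, γ n * χ ω n‖ ^ 2 ∂P ≤ D * (c ^ 2 * (2 + Real.log N) ^ 4)

/-- the transfer at the level of the smoothed sums, for two families -/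
theorem core_gen {a α : ℕ → ℂ} (hL : LogC a α) (K : Ker) (D κ : ℝ) (hD : 0 ≤ D) (hκ : 0 < κ) : ∃ r0 : ℕ, ∀ r : ℕ, r0 ≤ r →
    ∀ (Ω Ω' : Type) [MeasurableSpace Ω] [MeasurableSpace Ω'] (P : Measure Ω) (P' : Measure Ω') (χ : Ω → ℕ → ℂ) (χ' : Ω' → ℕ → ℂ),
    CF P χ (Y (150 * r)) → CF P' χ' (Y (150 * r)) → MS P χ (Y (150 * r)) D → MS P' χ' (Y (150 * r)) D →
    (∀ m n : ℕ, 1 ≤ m → m ≤ Y (150 * r) → 1 ≤ n → n ≤ Y (150 * r) → ‖(∫ ω, χ ω m * (starRingEnd ℂ) (χ ω n) ∂P) -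
      ∫ ω, χ' ω m * (starRingEnd ℂ) (χ' ω n) ∂P'‖ ≤ 2 / (Y (150 * r) : ℝ)) →
    (∀ ξ : ℕ → ℂ, (∀ j, ‖ξ j‖ ≤ 2 ^ (40 * r)) → ∫ ω, LF r α ξ (χ' ω) ^ (2 * 2 ^ (122 * r)) ∂P' ≤
      ((2 * 2 ^ (122 * r)).factorial : ℝ) * Real.exp (-(2 : ℝ) ^ (122 * r))) →
    P.real {ω | ∃ j : ℕ, j < NG r ∧ 20 * (r : ℝ) < ‖PS r α (χ ω) (tj r j)‖} ≤ κ / 6 →
    ∀ c : ℂ, ‖c‖ = 1 → ∀ L : ℝ,
    P.real {ω | ∀ i : ℕ, (i : ℝ) ≤ 1 / sr r → (c * SS K r (fun n => a n * χ ω n) i).re ≤ L} ≤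
    P'.real {ω | ∀ i : ℕ, (i : ℝ) ≤ 1 / sr r → (c * SS K r (fun n => a n * χ' ω n) i).re ≤ L + 3} + κ := by
  obtain ⟨r1, hr1⟩ := apx_core (Pool.Agent.Helper11.DR.sER hL) K D (κ / 6) hD (by linarith)
  obtain ⟨r2, hr2⟩ := t0_core sMO K (κ / 2) (by linarith)
  refine ⟨max (max r1 r2) 2, fun r hr Ω Ω' _ _ P P' χ χ' hF hF' hms hms' hcorr hmom hsub c hc L => ?_⟩
  have hra : r1 ≤ r := ((le_max_left _ _).trans (le_max_left _ _)).trans hr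
  have hrb : r2 ≤ r := ((le_max_right _ _).trans (le_max_left _ _)).trans hr
  have hrc : 2 ≤ r := (le_max_right _ _).trans hr
  have hA := hr1 r hra Ω P χ hF.prob hF.meas hF.one hF.mul hF.norm hms (fun _ => 1) cmu_one
  have hA' := hr1 r hra Ω' P' χ' hF'.prob hF'.meas hF'.one hF'.mul hF'.norm hms' (fun _ => 1) cmu_one
  simp only [mul_one] at hA hA'
  have h1 := hr2 r hrb a α Ω Ω' P P' χ χ' hF.prob hF'.prob hF.meas hF'.meas (κ / 6) hA hsub hA'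
    (fun ξ hξ => chf2 hL hrc hF hF' hcorr hξ (hmom ξ hξ)) c hc L
  linarith

/-- from a bound for all Gaussian means to a bound for the smoothed sums -/
theorem ev_gen (K : Ker) (D κ : ℝ) (hD : 0 ≤ D) (hκ : 0 < κ) : ∃ C : ℝ, 0 < C ∧ ∃ r0 : ℕ, ∀ r : ℕ, r0 ≤ r →
    ∀ (Ω : Type) [MeasurableSpace Ω] (P : Measure Ω) (χ : Ω → ℕ → ℂ), CF P χ (Y (150 * r)) → MS P χ (Y (150 * r)) D →
    ∀ (a : ℕ → ℂ) (F : Ω → ℕ → ℝ), (∀ n, ‖a n‖ ≤ 1) → (∀ ω n, |F ω n| ≤ 1) → (∀ ω n, 1 ≤ n → (F ω n : ℂ) = a n * χ ω n) →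
    ∀ σ lam : ℝ, (σ = 1 ∨ σ = -1) → 0 ≤ lam →
    P.real {ω | ∀ u : ℝ, σ * bb 1 (FF (F ω)) u ≤ lam} ≤
    P.real {ω | ∀ i : ℕ, (i : ℝ) ≤ 1 / sr r → ((σ : ℂ) * SS (KG K) r (fun n => a n * χ ω n) i).re ≤ C * lam + 2} + κ := by
  obtain ⟨C, hC, r1, hr1⟩ := bDG K
  obtain ⟨r2, hr2⟩ := short_core D κ hD hκ
  refine ⟨C, hC, max r1 r2, fun r hr Ω _ P χ hF hms a F ha hFb hFe σ lam hσ hlam => ?_⟩
  have hra : r1 ≤ r := (le_max_left _ _).trans hr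
  have hrb : r2 ≤ r := (le_max_right _ _).trans hr
  have hP := hF.prob
  choose! γ hγ hbd using fun i hi => hr1 r hra i hi
  have hs := hr2 r hrb Ω P χ hF.prob hF.meas hF.norm hms (fun i n => (γ i n : ℂ) * a n) (fun i hi n hn => by
    rw [norm_mul, Complex.norm_real, Real.norm_eq_abs]
    exact (mul_le_of_le_one_right (abs_nonneg _) (ha n)).trans (hγ i hi n hn))
  have hsub : {ω | ∀ u : ℝ, σ * bb 1 (FF (F ω)) u ≤ lam} ⊆
      {ω | ∀ i : ℕ, (i : ℝ) ≤ 1 / sr r → ((σ : ℂ) * SS (KG K) r (fun n => a n * χ ω n) i).re ≤ C * lam + 2} ∪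
      {ω | ∃ i : ℕ, (i : ℝ) ≤ 1 / sr r ∧ 1 < ‖∑ n ∈ Finset.Icc 1 (Y (2 * r + 2)), ((γ i n : ℂ) * a n) * χ ω n‖} := by
    intro ω hω
    by_cases h1 : ∃ i : ℕ, (i : ℝ) ≤ 1 / sr r ∧ 1 < ‖∑ n ∈ Finset.Icc 1 (Y (2 * r + 2)), ((γ i n : ℂ) * a n) * χ ω n‖
    · exact Or.inr h1
    left
    push Not at h1
    intro i hi
    have h2 := hbd i hi (F ω) σ lam (hFb ω) hσ hlam hω
    have h3 : SS (KG K) r (fun n => (F ω n : ℂ)) i = SS (KG K) r (fun n => a n * χ ω n) i :=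
      SS_congr fun n hn _ => hFe ω n hn
    have h4 : |∑ n ∈ Finset.Icc 1 (Y (2 * r + 2)), γ i n * F ω n| ≤ 1 := by
      have h5 : (((∑ n ∈ Finset.Icc 1 (Y (2 * r + 2)), γ i n * F ω n : ℝ)) : ℂ) =
          ∑ n ∈ Finset.Icc 1 (Y (2 * r + 2)), ((γ i n : ℂ) * a n) * χ ω n := by
        push_cast
        refine Finset.sum_congr rfl fun n hn => ?_
        rw [hFe ω n (Finset.mem_Icc.1 hn).1]
        ring
      have h6 := h1 i hi
      rw [← h5, Complex.norm_real, Real.norm_eq_abs] at h6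
      exact h6
    rw [h3] at h2
    have h7 : ((σ : ℂ) * SS (KG K) r (fun n => a n * χ ω n) i).re = σ * (SS (KG K) r (fun n => a n * χ ω n) i).re := by
      rw [Complex.re_ofReal_mul]
    rw [h7]
    linarith
  have h1 := (measureReal_mono hsub (measure_ne_top P _)).trans (measureReal_union_le _ _)
  linarith

/-! ### the twist by the Liouville function -/

theorem lac_mul (m n : ℕ) : lac (m * n) = lac m * lac n := by
  unfold lac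
  rcases eq_or_ne m 0 with rfl | hm
  · simp
  rcases eq_or_ne n 0 with rfl | hn
  · simp
  rw [if_neg hm, if_neg hn, if_neg (mul_ne_zero hm hn), ArithmeticFunction.cardFactors_mul hm hn, pow_add]

/-- twist by the Liouville function -/
theorem logC_twist {a α : ℕ → ℂ} (h : LogC a α) : LogC (fun n => a n * lac n) (fun n => α n * lac n) where
  one := by
    have h1 : lac 1 = 1 := by simp [lac]
    rw [h.one, h1, one_mul]
  norm_le n := by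
    rw [norm_mul]
    exact mul_le_one₀ (h.norm_le n) (norm_nonneg _) (norm_lac_le52 n)
  al0 := by rw [h.al0, zero_mul]
  al1 := by rw [h.al1, zero_mul]
  al_le n := by
    rw [norm_mul, mul_right_comm]
    refine (mul_le_of_le_one_right ?_ (norm_lac_le52 n)).trans (h.al_le n)
    exact mul_nonneg (norm_nonneg _) (Real.log_natCast_nonneg n)
  conv n hn := by
    rw [mul_right_comm, h.conv n hn, Finset.sum_mul]
    refine Finset.sum_congr rfl fun d hd => ?_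
    have hdn := Nat.dvd_of_mem_divisors hd
    have h1 : lac n = lac (n / d) * lac d := by rw [← lac_mul, Nat.div_mul_cancel hdn]
    rw [h1]
    ring

end Pool.Agent.Helper96.DR
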