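import Pool.Agent.Helper12.QT.LapF
import Pool.Agent.Helper11.Q3.Stmts

/-!
# Project DR, part A1: the zeros of the characters are filled; Gaussian means
-/

set_option autoImplicit false

namespace Pool.Agent.Helper96.DR

open Finset MeasureTheory Filter Topology Pool.Agent.QT

theorem abs_FF_le' {a : ℕ → ℝ} {B : ℝ} (ha : ∀ n, |a n| ≤ B) (t : ℝ) : |FF a t| ≤ B * Real.exp (t / 2) := by
  have hB : 0 ≤ B := (abs_nonneg _).trans (ha 0)
  unfold FF
  split_ifs with ht
  · rw [abs_mul, abs_of_pos (Real.exp_pos _)]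
    have h1 : |mS a (Real.exp t)| ≤ B * Real.exp t := by
      unfold mS
      refine (Finset.abs_sum_le_sum_abs _ _).trans ((Finset.sum_le_sum fun n _ => ha n).trans ?_)
      rw [Finset.sum_const, Nat.card_Icc, nsmul_eq_mul, Nat.add_sub_cancel, mul_comm]
      exact mul_le_mul_of_nonneg_left (Nat.floor_le (Real.exp_pos t).le) hB
    calc Real.exp (-(t / 2)) * |mS a (Real.exp t)| ≤ Real.exp (-(t / 2)) * (B * Real.exp t) :=
          mul_le_mul_of_nonneg_left h1 (Real.exp_pos _).le
      _ = B * (Real.exp (-(t / 2)) * Real.exp t) := by ring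
      _ = B * Real.exp (t / 2) := by rw [← Real.exp_add]; congr 2; ring
  · rw [abs_zero]
    positivity

/-- the Gaussian majorant -/
noncomputable def gm (u t : ℝ) : ℝ :=
  ((Real.sqrt (2 * Real.pi))⁻¹ * Real.exp (u / 2 + 1 / 8)) * Real.exp (-(1 / 2) * (t - (u + 1 / 2)) ^ 2)

theorem integrable_gm (u : ℝ) : Integrable (gm u) :=
  ((integrable_exp_neg_mul_sq (by norm_num : (0 : ℝ) < 1 / 2)).comp_sub_right (u + 1 / 2)).const_mul _

theorem gm_eq (u t : ℝ) : Real.exp (t / 2) * |gk 1 (u - t)| = gm u t := by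
  have h3 : |gk 1 (u - t)| = (Real.sqrt (2 * Real.pi))⁻¹ * Real.exp (-((u - t) ^ 2 / 2)) := by
    unfold gk
    rw [abs_of_nonneg (by positivity)]
    norm_num
  rw [h3]
  unfold gm
  calc Real.exp (t / 2) * ((Real.sqrt (2 * Real.pi))⁻¹ * Real.exp (-((u - t) ^ 2 / 2)))
      = (Real.sqrt (2 * Real.pi))⁻¹ * (Real.exp (t / 2) * Real.exp (-((u - t) ^ 2 / 2))) := by ring
    _ = (Real.sqrt (2 * Real.pi))⁻¹ * (Real.exp (u / 2 + 1 / 8) * Real.exp (-(1 / 2) * (t - (u + 1 / 2)) ^ 2)) := by
        rw [← Real.exp_add, ← Real.exp_add]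
        congr 2
        ring
    _ = _ := by ring

theorem measurable_gk (u : ℝ) : Measurable fun t : ℝ => gk 1 (u - t) := by
  unfold gk
  fun_prop

/-- one term -/
theorem term_le {a : ℕ → ℝ} {B : ℝ} (ha : ∀ n, |a n| ≤ B) (u : ℝ) {k : ℕ} (hk : 0 < k) (t : ℝ) :
    |FF a (t - Real.log k) * gk 1 (u - t)| ≤ B * (Real.sqrt k)⁻¹ * gm u t := by
  have hk0 : (0 : ℝ) < k := by exact_mod_cast hk
  rw [abs_mul]
  have h4 := abs_FF_le' ha (t - Real.log k)
  have h5 : Real.exp ((t - Real.log k) / 2) = (Real.sqrt k)⁻¹ * Real.exp (t / 2) := by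
    have h6 : Real.sqrt k = Real.exp (Real.log k / 2) := by
      rw [Real.sqrt_eq_rpow, Real.rpow_def_of_pos hk0]
      congr 1
      ring
    rw [h6, ← Real.exp_neg, ← Real.exp_add]
    congr 1
    ring
  calc |FF a (t - Real.log k)| * |gk 1 (u - t)| ≤ (B * Real.exp ((t - Real.log k) / 2)) * |gk 1 (u - t)| :=
        mul_le_mul_of_nonneg_right h4 (abs_nonneg _)
    _ = B * (Real.sqrt k)⁻¹ * (Real.exp (t / 2) * |gk 1 (u - t)|) := by rw [h5]; ring
    _ = _ := by rw [gm_eq]

theorem integrable_term {a : ℕ → ℝ} {B : ℝ} (ha : ∀ n, |a n| ≤ B) (u : ℝ) {k : ℕ} (hk : 0 < k) :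
    Integrable fun t : ℝ => FF a (t - Real.log k) * gk 1 (u - t) := by
  refine ((integrable_gm u).const_mul (B * (Real.sqrt k)⁻¹)).mono' ?_ (Filter.Eventually.of_forall fun t => ?_)
  · exact (((measurable_FF a).comp (measurable_id.sub_const _)).mul (measurable_gk u)).aestronglyMeasurable
  · rw [Real.norm_eq_abs]
    exact term_le ha u hk t

theorem bb_shift (a : ℕ → ℝ) (u s : ℝ) : ∫ t : ℝ, FF a (t - s) * gk 1 (u - t) = bb 1 (FF a) (u - s) := by
  have hsh : (fun t : ℝ => FF a (t - s) * gk 1 (u - t)) = fun t : ℝ => (fun y : ℝ => FF a y * gk 1 (u - s - y)) (t - s) := by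
    funext t
    simp only
    congr 2
    ring
  rw [hsh, integral_sub_right_eq_self (fun y : ℝ => FF a y * gk 1 (u - s - y))]
  rfl

open Classical in
/-- the filled sums, pointwise -/
theorem FF_fill {f a : ℕ → ℝ} {W : ℕ → Prop}
    (h : ∀ N : ℕ, ∑ n ∈ Finset.Icc 1 N, f n = ∑ k ∈ (Finset.Icc 1 N).filter W, ∑ n ∈ Finset.Icc 1 (N / k), a n) (t : ℝ) :
    FF f t = ∑ k ∈ (Finset.Icc 1 ⌊Real.exp t⌋₊).filter W, (Real.sqrt k)⁻¹ * FF a (t - Real.log k) := by
  by_cases ht : 0 ≤ t
  · have h1 : FF f t = Real.exp (-(t / 2)) * mS f (Real.exp t) := by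
      unfold FF
      rw [if_pos ht]
    have h2 : mS f (Real.exp t) = ∑ k ∈ (Finset.Icc 1 ⌊Real.exp t⌋₊).filter W, mS a (Real.exp t / k) := by
      unfold mS
      rw [h]
      refine Finset.sum_congr rfl fun k _ => ?_
      rw [Nat.floor_div_natCast]
    rw [h1, h2, Finset.mul_sum]
    refine Finset.sum_congr rfl fun k hk => ?_
    have hk1 := (Finset.mem_Icc.1 (Finset.mem_filter.1 hk).1)
    have hk0 : (0 : ℝ) < k := by exact_mod_cast hk1.1
    have h3 : Real.exp (t - Real.log k) = Real.exp t / k := by rw [Real.exp_sub, Real.exp_log hk0]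
    have h30 : (k : ℝ) ≤ Real.exp t := (Nat.le_floor_iff (Real.exp_pos t).le).1 hk1.2
    have h31 : 0 ≤ t - Real.log k := by
      have := Real.log_le_log hk0 h30
      rw [Real.log_exp] at this
      linarith
    unfold FF
    rw [if_pos h31, h3]
    have h5 : Real.exp (-((t - Real.log k) / 2)) = Real.exp (-(t / 2)) * Real.sqrt k := by
      have h6 : Real.sqrt k = Real.exp (Real.log k / 2) := by
        rw [Real.sqrt_eq_rpow, Real.rpow_def_of_pos hk0]
        congr 1
        ring
      rw [h6, ← Real.exp_add]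
      congr 1
      ring
    rw [h5]
    have h7 : Real.sqrt k ≠ 0 := (Real.sqrt_pos.2 hk0).ne'
    field_simp
  · have h1 : FF f t = 0 := by
      unfold FF
      rw [if_neg ht]
    rw [h1]
    symm
    refine Finset.sum_eq_zero fun k hk => ?_
    have hk1 := (Finset.mem_Icc.1 (Finset.mem_filter.1 hk).1).1
    have hk0 : (1 : ℝ) ≤ k := by exact_mod_cast hk1
    have h2 := Real.log_nonneg hk0
    unfold FF
    rw [if_neg (by linarith), mul_zero]

open Classical in
/-- the Gaussian means of the filled sums -/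
theorem bb_fill_le {f a : ℕ → ℝ} {B : ℝ} (ha : ∀ n, |a n| ≤ B) {W : ℕ → Prop}
    (h : ∀ N : ℕ, ∑ n ∈ Finset.Icc 1 N, f n = ∑ k ∈ (Finset.Icc 1 N).filter W, ∑ n ∈ Finset.Icc 1 (N / k), a n) {σ L C1 : ℝ}
    (hL : 0 ≤ L) (hb : ∀ u, σ * bb 1 (FF a) u ≤ L)
    (hC : ∀ N : ℕ, ∑ k ∈ (Finset.Icc 1 N).filter W, 1 / Real.sqrt k ≤ C1) (u : ℝ) : σ * bb 1 (FF f) u ≤ C1 * L := by
  have hB : 0 ≤ B := (abs_nonneg _).trans (ha 0)
  set wt : ℕ → ℝ := fun k => if 1 ≤ k ∧ W k then (Real.sqrt k)⁻¹ else 0 with hwt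
  have hwt0 : ∀ k, 0 ≤ wt k := by
    intro k
    rw [hwt]
    simp only
    split_ifs
    · positivity
    · exact le_rfl
  have hpart : ∀ N : ℕ, ∑ k ∈ Finset.range N, wt k ≤ C1 := by
    intro N
    refine le_trans ?_ (hC N)
    have h1 : ∑ k ∈ (Finset.Icc 1 N).filter W, 1 / Real.sqrt k = ∑ k ∈ (Finset.Icc 1 N).filter W, wt k := by
      refine Finset.sum_congr rfl fun k hk => ?_
      rw [Finset.mem_filter, Finset.mem_Icc] at hk
      rw [hwt]
      simp only
      rw [if_pos ⟨hk.1.1, hk.2⟩, one_div]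
    have h2 : ∑ k ∈ Finset.range N, wt k = ∑ k ∈ (Finset.range N).filter (fun k => 1 ≤ k ∧ W k), wt k := by
      rw [Finset.sum_filter]
      refine Finset.sum_congr rfl fun k _ => ?_
      rw [hwt]
      simp only
      split_ifs <;> rfl
    rw [h1, h2]
    refine Finset.sum_le_sum_of_subset_of_nonneg (fun k hk => ?_) fun k _ _ => hwt0 k
    rw [Finset.mem_filter, Finset.mem_range] at hk
    rw [Finset.mem_filter, Finset.mem_Icc]
    exact ⟨⟨hk.2.1, hk.1.le⟩, hk.2.2⟩
  have hsum : Summable wt := summable_of_sum_range_le hwt0 hpart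
  set F : ℕ → ℝ → ℝ := fun k t => wt k * (FF a (t - Real.log k) * gk 1 (u - t)) with hF
  have hFint : ∀ k, Integrable (F k) := by
    intro k
    by_cases hk : 1 ≤ k
    · exact (integrable_term ha u hk).const_mul _
    · have : F k = fun _ => 0 := by
        funext t
        rw [hF, hwt]
        simp only
        rw [if_neg (fun hh => hk hh.1), zero_mul]
      rw [this]
      exact integrable_zero _ _ _
  have hgm0 : ∀ t, 0 ≤ gm u t := fun t => by
    unfold gm
    positivity
  have hFn : ∀ k, ∫ t, ‖F k t‖ ≤ wt k * (B * ∫ t, gm u t) := by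
    intro k
    by_cases hk : 1 ≤ k
    · have h1 : ∀ t, ‖F k t‖ ≤ wt k * (B * gm u t) := by
        intro t
        rw [hF]
        simp only
        rw [norm_mul, Real.norm_eq_abs, abs_of_nonneg (hwt0 k), Real.norm_eq_abs]
        refine mul_le_mul_of_nonneg_left ((term_le ha u hk t).trans ?_) (hwt0 k)
        have h2 : (Real.sqrt k)⁻¹ ≤ 1 := by
          apply inv_le_one_of_one_le₀
          rw [Real.one_le_sqrt]
          exact_mod_cast hk
        exact mul_le_mul_of_nonneg_right (mul_le_of_le_one_right hB h2) (hgm0 t)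
      calc ∫ t, ‖F k t‖ ≤ ∫ t, wt k * (B * gm u t) := integral_mono (hFint k).norm (((integrable_gm u).const_mul _).const_mul _) h1
        _ = wt k * (B * ∫ t, gm u t) := by rw [integral_const_mul, integral_const_mul]
    · have h1 : wt k = 0 := by
        rw [hwt]
        simp only
        rw [if_neg (fun hh => hk hh.1)]
      have h2 : ∀ t, ‖F k t‖ = 0 := by
        intro t
        rw [hF]
        simp only
        rw [h1, zero_mul, norm_zero]
      simp only [h2, h1, integral_zero, zero_mul, le_refl]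
  have hFs : Summable fun k => ∫ t, ‖F k t‖ :=
    Summable.of_nonneg_of_le (fun k => integral_nonneg fun t => norm_nonneg _) hFn (hsum.mul_right _)
  have hH := hasSum_integral_of_summable_integral_norm hFint hFs
  have hpt : ∀ t, ∑' k, F k t = FF f t * gk 1 (u - t) := by
    intro t
    rw [FF_fill h t, Finset.sum_mul, Finset.sum_filter]
    rw [tsum_eq_sum (s := Finset.Icc 1 ⌊Real.exp t⌋₊)]
    · refine Finset.sum_congr rfl fun k hk => ?_
      rw [Finset.mem_Icc] at hk
      rw [hF, hwt]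
      simp only
      by_cases hW : W k
      · rw [if_pos ⟨hk.1, hW⟩, if_pos hW]
        ring
      · rw [if_neg (fun hh => hW hh.2), if_neg hW, zero_mul]
    · intro k hk
      rw [Finset.mem_Icc, not_and_or] at hk
      rw [hF]
      simp only
      rcases hk with hk | hk
      · rw [hwt]
        simp only
        rw [if_neg (fun hh => hk hh.1), zero_mul]
      · have h1 : Real.exp t < k := (Nat.floor_lt (Real.exp_pos t).le).1 (not_le.1 hk)
        have h2 : t < Real.log k := by
          rw [Real.lt_log_iff_exp_lt (lt_trans (Real.exp_pos t) h1)]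
          exact h1
        have h3 : FF a (t - Real.log k) = 0 := by
          unfold FF
          rw [if_neg (by linarith)]
        rw [h3, zero_mul, mul_zero]
  have hbb : bb 1 (FF f) u = ∫ t, ∑' k, F k t := by
    unfold bb
    exact integral_congr_ae (Filter.Eventually.of_forall fun t => (hpt t).symm)
  have hFk : ∀ k, ∫ t, F k t = wt k * bb 1 (FF a) (u - Real.log k) := by
    intro k
    rw [hF]
    simp only
    rw [integral_const_mul, bb_shift]
  rw [hbb]
  have hH2 := hH.mul_left σ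
  have hle : ∀ k, σ * ∫ t, F k t ≤ wt k * L := by
    intro k
    rw [hFk, mul_left_comm]
    exact mul_le_mul_of_nonneg_left (hb _) (hwt0 k)
  have h3 := hasSum_le hle hH2 (hsum.mul_right L).hasSum
  refine h3.trans ?_
  rw [tsum_mul_right]
  exact mul_le_mul_of_nonneg_right (Real.tsum_le_of_sum_range_le hwt0 hpart) hL

end Pool.Agent.Helper96.DR
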