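import Pool.Agent.Helper96.DR.A1
import Pool.Agent.Helper5.Psi.PackP
import Pool.Agent.Helper52.DR.GSR

/-!
# Project DR, part A1: the Gaussian means of the filled sums of the characters `ψ (. / q)`
-/

set_option autoImplicit false

namespace Pool.Agent.Helper96.DR

open Finset MeasureTheory Filter Topology Pool.Agent.Helper5.RM Pool.Agent.Helper96.AF Pool.Agent.Helper66.LW Pool.Agent.IT
open Pool.Agent.DR Pool.Agent.QT Pool.Agent.Helper11.Q3 Pool.Agent.Helper11.DR Pool.Agent.Helper5.Psi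

/-- the fair real model at the level of the smoothed sums -/
def GSR (a : ℕ → ℂ) (σ : ℝ) : Prop := ∀ (K : Ker) (δ η C0 : ℝ), 0 < δ → 0 < η → 0 < C0 → ∃ r0 : ℕ, ∀ r : ℕ, r0 ≤ r →
  pr (PP (Y (r + 1))) (fun T => ∀ i : ℕ, (i : ℝ) ≤ 1 / sr r → ((σ : ℂ) * SS K r (fun n => a n * chB T n) i).re ≤
    C0 * (r : ℝ) ^ (1 / 4 - δ)) ≤ η

theorem ev_QP {ψ : ℕ → ℤ} (hψ : PsiOK ψ) {a α : ℕ → ℂ} (hL : LogC a α) {F : (ℕ → ℝ) → ℕ → ℝ} (hFb : ∀ z, Sgn z → ∀ n, |F z n| ≤ 1)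
    (hFe : ∀ z, Sgn z → ∀ n, 1 ≤ n → (F z n : ℂ) = a n * (gz z n : ℂ)) {σ : ℝ} (hσ : σ = 1 ∨ σ = -1) (hG : GSR a σ)
    {δ η C1 : ℝ} (hδ : 0 < δ) (hη : 0 < η) (hC1 : 0 ≤ C1) : ∃ (r0 : ℕ) (C0 : ℝ), 0 < C0 ∧ ∀ r : ℕ, r0 ≤ r → ∀ Q : ℕ,
    C0 * ((Y (150 * r) : ℕ) : ℝ) ^ 10 ≤ Q →
    (PQ Q).real {q | ∀ u : ℝ, σ * bb 1 (FF (F (zqp ψ q))) u ≤ C1 * (r : ℝ) ^ (1 / 4 - δ)} ≤ η := by
  obtain ⟨K⟩ := ker_nonempty
  obtain ⟨C, hC, r1, hr1⟩ := ev_gen K 2 (η / 4) zero_le_two (by linarith)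
  obtain ⟨r2, hr2⟩ := core_gen hL (KG K) 2 (η / 4) zero_le_two (by linarith)
  obtain ⟨Cf, hCf, hfair⟩ := ev_fairP
  obtain ⟨r3, hr3⟩ := hG (KG K) (min δ (1 / 4)) ((η / (4 * Cf)) ^ 2) (C * C1 + 5) (by positivity) (by positivity) (by positivity)
  obtain ⟨r4, hr4⟩ := sub_Qp hL (η / 4 / 6) (by linarith)
  obtain ⟨Cq, hCq, hq⟩ := Q_largeP
  refine ⟨max (max r1 r2) (max (max r3 r4) 9), Cq, hCq, fun r hr Q hQ => ?_⟩
  have hra : r1 ≤ r := ((le_max_left _ _).trans (le_max_left _ _)).trans hr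
  have hrb : r2 ≤ r := ((le_max_right _ _).trans (le_max_left _ _)).trans hr
  have hrc : r3 ≤ r := (((le_max_left _ _).trans (le_max_left _ _)).trans (le_max_right _ _)).trans hr
  have hrd : r4 ≤ r := (((le_max_right _ _).trans (le_max_left _ _)).trans (le_max_right _ _)).trans hr
  have hre : 9 ≤ r := ((le_max_right _ _).trans (le_max_right _ _)).trans hr
  have hr1' : (1 : ℝ) ≤ r := by exact_mod_cast (by omega : 1 ≤ r)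
  obtain ⟨hcard, hcorr⟩ := hq ψ hψ Q (Y (150 * r)) (Y_pos _) hQ
  have hFQ := cf_Qp hψ hcard (Y (150 * r))
  have hFB := cf_Bp (bias_bps ψ) (PP (Y (150 * r))) (Y (150 * r))
  have hmsQ : MS (PQ Q) (chQp ψ) (Y (150 * r)) 2 := fun γ c hc hγ N hN hN3 =>
    ms_Qp hψ hcard hcorr γ c hc hγ N hN hN3
  have hmsB : MS (PBp (bps ψ) (PP (Y (150 * r)))) chB (Y (150 * r)) 2 := fun γ c hc hγ N hN hN3 =>
    ms_Bp (bias_bps ψ) γ c hc hγ N hN hN3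
  have hYY : Y (r + 1) ≤ Y (150 * r) := Y_mono (by omega)
  set lam : ℝ := C1 * (r : ℝ) ^ (1 / 4 - δ) with hlam
  have hlam0 : 0 ≤ lam := by positivity
  have h1 := hr1 r hra ℕ (PQ Q) (chQp ψ) hFQ hmsQ a (fun q => F (zqp ψ q)) hL.norm_le (fun q n => hFb _ (sgn_zqp hψ q) n)
    (fun q n hn => hFe _ (sgn_zqp hψ q) n hn) σ lam hσ hlam0
  have hσn : ‖(σ : ℂ)‖ = 1 := by
    rw [Complex.norm_real, Real.norm_eq_abs]
    rcases hσ with h | h <;> simp [h]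
  have h2 := hr2 r hrb ℕ (Finset ℕ) (PQ Q) (PBp (bps ψ) (PP (Y (150 * r)))) (chQp ψ) chB hFQ hFB hmsQ hmsB (corr_QBp hcorr)
    (fun ξ hξ => mom_Bp (bias_bps ψ) hL hre hξ hYY) (hr4 r hrd ψ hψ Q hcard hcorr) σ hσn (C * lam + 2)
  have h3 := hfair (bps ψ) (bias_bps ψ) (KG K) a σ r (Y (150 * r)) (C * lam + 2 + 3) hYY
  have h4 : pr (PP (Y (r + 1))) (fun T => ∀ i : ℕ, (i : ℝ) ≤ 1 / sr r → ((σ : ℂ) * SS (KG K) r (fun n => a n * chB T n) i).re ≤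
      C * lam + 2 + 3) ≤ (η / (4 * Cf)) ^ 2 := by
    refine (pr_mono fun T _ hT i hi => (hT i hi).trans ?_).trans (hr3 r hrc)
    have h5 : (r : ℝ) ^ (1 / 4 - δ) ≤ (r : ℝ) ^ (1 / 4 - min δ (1 / 4)) :=
      Real.rpow_le_rpow_of_exponent_le hr1' (by linarith [min_le_left δ (1 / 4)])
    have h6 : (1 : ℝ) ≤ (r : ℝ) ^ (1 / 4 - min δ (1 / 4)) := Real.one_le_rpow hr1' (by linarith [min_le_right δ (1 / 4)])
    calc C * lam + 2 + 3 = C * C1 * (r : ℝ) ^ (1 / 4 - δ) + 5 * 1 := by rw [hlam]; ring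
      _ ≤ C * C1 * (r : ℝ) ^ (1 / 4 - min δ (1 / 4)) + 5 * (r : ℝ) ^ (1 / 4 - min δ (1 / 4)) := by gcongr
      _ = (C * C1 + 5) * (r : ℝ) ^ (1 / 4 - min δ (1 / 4)) := by ring
  have h5 : Cf * Real.sqrt (pr (PP (Y (r + 1))) (fun T => ∀ i : ℕ, (i : ℝ) ≤ 1 / sr r →
      ((σ : ℂ) * SS (KG K) r (fun n => a n * chB T n) i).re ≤ C * lam + 2 + 3)) ≤ η / 4 := by
    calc _ ≤ Cf * Real.sqrt ((η / (4 * Cf)) ^ 2) := mul_le_mul_of_nonneg_left (Real.sqrt_le_sqrt h4) hCf.le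
      _ = η / 4 := by
        rw [Real.sqrt_sq (by positivity)]
        field_simp
  linarith

end Pool.Agent.Helper96.DR
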