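import Pool.Agent.Helper96.DR.P1
import Pool.Agent.Helper96.DR.Fill
import Pool.Agent.Helper96.QT.DefL
import Pool.Agent.Helper5.Psi.J3psi
import Pool.Agent.Helper56.DR.J3c
import Pool.Agent.Helper95.TF.RecM
import Pool.Agent.Helper95.TF.RecL
import Pool.Agent.Helper95.TF.J4psi

/-!
# Project DR, part A1: one-sided bounds of size `r^{1/4-δ}` are rare, for all primitive real characters
-/

set_option autoImplicit false

namespace Pool.Agent.Helper96.DR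

open Finset MeasureTheory Filter Topology Pool.Agent.Helper5.RM Pool.Agent.Helper96.AF Pool.Agent.Helper66.LW Pool.Agent.IT
open Pool.Agent.DR Pool.Agent.QT Pool.Agent.Helper11.Q3 Pool.Agent.Helper11.DR Pool.Agent.Helper5.Psi Pool.Agent.Q3psi

theorem PQ_real (Q : ℕ) (E : Set ℕ) [DecidablePred (· ∈ E)] : (PQ Q).real E = ((OS Q).filter (· ∈ E)).card / (OS Q).card := by
  unfold PQ
  rw [FM_real _ _ (fun _ _ => by positivity) _ (by trivial), ← Finset.mul_sum, one_div, ← div_eq_inv_mul]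
  congr 1
  rw [Finset.card_filter]
  push_cast
  refine Finset.sum_congr rfl fun q _ => ?_
  by_cases h : q ∈ E
  · simp [h]
  · simp [h]

/-- the general end: from the Gaussian means of the filled sums to the characters -/
theorem fin_genP {ψ : ℕ → ℤ} (hψ : PsiOK ψ) {a α : ℕ → ℂ} (hL : LogC a α) {F : (ℕ → ℝ) → ℕ → ℝ}
    (hFb : ∀ z, Sgn z → ∀ n, |F z n| ≤ 1)
    (hFe : ∀ z, Sgn z → ∀ n, 1 ≤ n → (F z n : ℂ) = a n * (gz z n : ℂ)) {σ : ℝ} (hσ : σ = 1 ∨ σ = -1) (hG : GSR a σ)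
    (Bad : ℝ → ℕ → Prop) (b : ℕ → ℕ → ℝ) (hb : ∀ q n, |b q n| ≤ 1) (q0 : ℕ)
    (hBad : ∀ (V : ℝ) (q : ℕ), 0 ≤ V → q0 ≤ q → Bad V q → ∀ u : ℝ, σ * bb 1 (FF (b q)) u ≤ V + 2)
    (W : ℕ → ℕ → Prop) (hW : ∀ q k, W q k → Wp ψ q k)
    (hfill : ∀ q N : ℕ, 0 < q → ∑ n ∈ Finset.Icc 1 N, F (zqp ψ q) n =
      ∑ k ∈ (open Classical in (Finset.Icc 1 N).filter (W q)), ∑ n ∈ Finset.Icc 1 (N / k), b q n)
    {δ η : ℝ} (hδ : 0 < δ) (hη : 0 < η) : ∃ (r0 : ℕ) (C0 : ℝ), 0 < C0 ∧ ∀ r : ℕ, r0 ≤ r → ∀ Q : ℕ,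
    C0 * ((Y (150 * r) : ℕ) : ℝ) ^ 10 ≤ Q → (PQ Q).real {q | Bad ((r : ℝ) ^ (1 / 4 - δ)) q} ≤ η := by
  classical
  obtain ⟨C1, hC1, hSm⟩ := Pool.Agent.Helper56.DR.j3c Pool.Agent.Helper11.Q3.j1d (η / 3) (by linarith)
  obtain ⟨r1, Ca, hCa, h1⟩ := ev_QP hψ hL hFb hFe hσ hG (δ := min δ (1 / 4)) (η := η / 3) (C1 := 12 * C1) (by positivity) (by linarith)
    (by positivity)
  refine ⟨max r1 1, max Ca (24 * (q0 + 1) / η), lt_max_of_lt_left hCa, fun r hr Q hQ => ?_⟩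
  have hra : r1 ≤ r := (le_max_left _ _).trans hr
  have hrb : 1 ≤ r := (le_max_right _ _).trans hr
  have hr1' : (1 : ℝ) ≤ r := by exact_mod_cast hrb
  have hY1 : (1 : ℝ) ≤ ((Y (150 * r) : ℕ) : ℝ) ^ 10 := one_le_pow₀ (by exact_mod_cast Y_pos (150 * r))
  have hQa : Ca * ((Y (150 * r) : ℕ) : ℝ) ^ 10 ≤ Q := by
    refine le_trans ?_ hQ
    gcongr
    exact le_max_left _ _
  have hQb : 24 * ((q0 : ℝ) + 1) / η ≤ Q := by
    refine le_trans ?_ hQ
    calc 24 * ((q0 : ℝ) + 1) / η ≤ max Ca (24 * (q0 + 1) / η) * 1 := by rw [mul_one]; exact le_max_right _ _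
      _ ≤ max Ca (24 * (q0 + 1) / η) * ((Y (150 * r) : ℕ) : ℝ) ^ 10 := by gcongr
  have hcard := Pool.Agent.Helper11.Q3.j1d Q
  have hQ0 : (0 : ℝ) < Q := lt_of_lt_of_le (by positivity) hQb
  have hc0 : (0 : ℝ) < (OS Q).card := by linarith [div_pos hQ0 (by norm_num : (0 : ℝ) < 8)]
  have hcN : 0 < (OS Q).card := by exact_mod_cast hc0
  have hP : IsProbabilityMeasure (PQ Q) := PQ_prob hcN
  set V : ℝ := (r : ℝ) ^ (1 / 4 - δ) with hV
  have hV0 : 0 ≤ V := by positivity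
  set V' : ℝ := (r : ℝ) ^ (1 / 4 - min δ (1 / 4)) with hV'
  have hVV : V ≤ V' := Real.rpow_le_rpow_of_exponent_le hr1' (by linarith [min_le_left δ (1 / 4)])
  have hV1 : (1 : ℝ) ≤ V' := Real.one_le_rpow hr1' (by linarith [min_le_right δ (1 / 4)])
  have s1 : (PQ Q).real {q | q < q0} ≤ η / 3 := by
    rw [PQ_real, div_le_iff₀ hc0]
    rw [div_le_iff₀ hη] at hQb
    have e3 := mul_le_mul_of_nonneg_right hcard hη.le
    refine le_trans (b := (q0 : ℝ)) ?_ (by linarith)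
    have e2 : ∀ A : Finset ℕ, (∀ q ∈ A, q < q0) → (A.card : ℝ) ≤ q0 := by
      intro A hA
      have e4 : A.card ≤ (Finset.range q0).card := Finset.card_le_card fun q hq => Finset.mem_range.2 (hA q hq)
      rw [Finset.card_range] at e4
      exact_mod_cast e4
    exact e2 _ fun q hq => (Finset.mem_filter.1 hq).2
  have s2 : (PQ Q).real {q | ¬ Sm C1 q} ≤ η / 3 := by
    rw [PQ_real, div_le_iff₀ hc0]
    refine le_trans (le_of_eq ?_) (hSm Q)
    congr 2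
  have s3 := h1 r hra Q hQa
  have s4 : (PQ Q).real {q | q = 0} ≤ 0 := by
    rw [PQ_real, Finset.filter_false_of_mem]
    · simp
    · intro q hq h
      have h2 := (Finset.mem_Icc.1 (Finset.mem_filter.1 hq).1).1
      have h3 : q = 0 := h
      omega
  have hsub : {q | Bad V q} ⊆ {q | q < q0} ∪ ({q | ¬ Sm C1 q} ∪ ({q | q = 0} ∪
      {q | ∀ u : ℝ, σ * bb 1 (FF (F (zqp ψ q))) u ≤ 12 * C1 * V'})) := by
    intro q hq
    by_cases e1 : q < q0
    · exact Or.inl e1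
    by_cases e2 : Sm C1 q
    · right; right
      rcases Nat.eq_zero_or_pos q with e3 | e3
      · exact Or.inl e3
      · right
        intro u
        have e4 := hBad V q hV0 (not_lt.1 e1) hq
        have e2' := smP_of hψ e2
        have e5 := bb_fill_le (f := F (zqp ψ q)) (a := b q) (B := 1) (hb q) (W := W q) (fun N => by
          rw [hfill q N e3]) (σ := σ) (L := V + 2) (C1 := 4 * C1) (by linarith) e4 (fun N => ?_) u
        · refine e5.trans ?_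
          have e6 : V + 2 ≤ 3 * V' := by linarith
          calc 4 * C1 * (V + 2) ≤ 4 * C1 * (3 * V') := mul_le_mul_of_nonneg_left e6 (by linarith)
            _ = 12 * C1 * V' := by ring
        · refine le_trans ?_ (e2' N)
          refine Finset.sum_le_sum_of_subset_of_nonneg (fun k hk => ?_) fun k _ _ => by positivity
          rw [Finset.mem_filter] at hk ⊢
          exact ⟨hk.1, hW q k hk.2⟩
    · exact Or.inr (Or.inl e2)
  have m1 := measureReal_mono (μ := PQ Q) hsub (measure_ne_top _ _)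
  have m2 := measureReal_union_le (μ := PQ Q) {q | q < q0} ({q | ¬ Sm C1 q} ∪ ({q | q = 0} ∪
      {q | ∀ u : ℝ, σ * bb 1 (FF (F (zqp ψ q))) u ≤ 12 * C1 * V'}))
  have m3 := measureReal_union_le (μ := PQ Q) {q | ¬ Sm C1 q} ({q | q = 0} ∪ {q | ∀ u : ℝ, σ * bb 1 (FF (F (zqp ψ q))) u ≤ 12 * C1 * V'})
  have m4 := measureReal_union_le (μ := PQ Q) {q | q = 0} {q | ∀ u : ℝ, σ * bb 1 (FF (F (zqp ψ q))) u ≤ 12 * C1 * V'}
  linarith

theorem fz_abs_le {z : ℕ → ℝ} (hz : Sgn z) (n : ℕ) : |fz z n| ≤ 1 := by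
  unfold fz
  split_ifs
  · rw [Finset.abs_prod]
    refine Finset.prod_le_one (fun _ _ => abs_nonneg _) fun p hp => ?_
    rcases hz p (Nat.prime_of_mem_primeFactors hp) with h | h <;> simp [h]
  · simp

theorem gz_abs_le {z : ℕ → ℝ} (hz : Sgn z) (n : ℕ) : |gz z n| ≤ 1 := by
  rcases eq_or_ne n 0 with rfl | hn
  · simp [gz_zero]
  · rcases gz_sq hz hn with h | h <;> simp [h]

theorem muc_lac {n : ℕ} (hn : 1 ≤ n) : muc n * lac n = if Squarefree n then 1 else 0 := by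
  unfold muc lac
  rw [if_neg (by omega)]
  split_ifs with h
  · rw [ArithmeticFunction.moebius_apply_of_squarefree h]
    push_cast
    rw [← mul_pow]
    norm_num
  · rw [ArithmeticFunction.moebius_eq_zero_of_not_squarefree h]
    simp

theorem lac_lac {n : ℕ} (hn : 1 ≤ n) : lac n * lac n = 1 := by
  unfold lac
  rw [if_neg (by omega), ← mul_pow]
  norm_num

theorem fz_muc {z : ℕ → ℝ} {n : ℕ} (hn : 1 ≤ n) : (fz z n : ℂ) = muc n * lac n * (gz z n : ℂ) := by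
  rw [muc_lac hn]
  unfold fz gz
  split_ifs with h h0
  · omega
  · rw [one_mul]
    congr 1
    refine Finset.prod_congr rfl fun p hp => ?_
    have h1 : n.factorization p ≤ 1 := (Nat.squarefree_iff_factorization_le_one h.ne_zero).1 h p
    have h2 : n.factorization p ≠ 0 := by
      have := Nat.support_factorization n ▸ hp
      exact Finsupp.mem_support_iff.1 this
    rw [show n.factorization p = 1 by omega, pow_one]
  · simp
  · simp

theorem gsr_of {a a' : ℕ → ℂ} (h : ∀ n, 1 ≤ n → a' n = a n) (hG : StmtGSR a) {σ : ℝ} (hσ : σ = 1 ∨ σ = -1) : GSR a' σ := by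
  intro K δ η C0 hδ hη hC0
  obtain ⟨r0, hr0⟩ := hG K δ η C0 hδ hη hC0
  refine ⟨r0, fun r hr => ?_⟩
  refine (pr_mono fun T _ hT i hi => ?_).trans (hr0 r hr (σ : ℂ) ?_)
  · have h1 : SS K r (fun n => a n * chB T n) i = SS K r (fun n => a' n * chB T n) i :=
      SS_congr fun n hn _ => by rw [h n hn]
    rw [h1]
    exact hT i hi
  · rcases hσ with h | h <;> simp [h]

theorem gsr_M {σ : ℝ} (hσ : σ = 1 ∨ σ = -1) : GSR (fun n => muc n * lac n) σ := gsr_of (fun _ hn => muc_lac hn) gSR_sq hσ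

theorem gsr_L {σ : ℝ} (hσ : σ = 1 ∨ σ = -1) : GSR (fun n => lac n * lac n) σ := gsr_of (fun _ hn => lac_lac hn) gSR_one hσ

/-- `μ(n) ψ_j(n) (n/q)` -/
noncomputable def ajq (j : Fin 4) (q n : ℕ) : ℝ := (ArithmeticFunction.moebius n : ℝ) * ((ps j n * jacobiSym n q : ℤ) : ℝ)

/-- `λ(n) ψ_j(n) (n/q)` -/
noncomputable def ljq (j : Fin 4) (q n : ℕ) : ℝ := (-1 : ℝ) ^ ArithmeticFunction.cardFactors n * ((ps j n * jacobiSym n q : ℤ) : ℝ)

theorem abs_ch (j : Fin 4) (q n : ℕ) : |((ps j n * jacobiSym n q : ℤ) : ℝ)| ≤ 1 := by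
  have h1 := (psiOK_ps j).le n
  have h2 : |jacobiSym (n : ℤ) q| ≤ 1 := by
    rcases jacobiSym.trichotomy (n : ℤ) q with h | h | h <;> simp [h]
  have h3 : |ps j n * jacobiSym n q| ≤ 1 := by
    rw [abs_mul]
    exact mul_le_one₀ h1 (abs_nonneg _) h2
  exact_mod_cast h3

theorem abs_ajq (j : Fin 4) (q n : ℕ) : |ajq j q n| ≤ 1 := by
  unfold ajq
  rw [abs_mul]
  refine mul_le_one₀ ?_ (abs_nonneg _) (abs_ch j q n)
  exact_mod_cast ArithmeticFunction.abs_moebius_le_one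

theorem abs_ljq (j : Fin 4) (q n : ℕ) : |ljq j q n| ≤ 1 := by
  unfold ljq
  rw [abs_mul, abs_pow, abs_neg, abs_one, one_pow, one_mul]
  exact abs_ch j q n

theorem cd_pos (j : Fin 4) : 1 ≤ cd j := by
  fin_cases j <;> simp [cd]

/-- **M side.** -/
theorem fin_MP (j : Fin 4) {σ : ℝ} (hσ : σ = 1 ∨ σ = -1) {δ η : ℝ} (hδ : 0 < δ) (hη : 0 < η) :
    ∃ (r0 : ℕ) (C0 : ℝ), 0 < C0 ∧ ∀ r : ℕ, r0 ≤ r → ∀ Q : ℕ, C0 * ((Y (150 * r) : ℕ) : ℝ) ^ 10 ≤ Q →
    (PQ Q).real {q | ∃ (_ : NeZero (cd j * q)) (χ : DirichletCharacter ℂ (cd j * q)),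
      Hyp χ (ajq j q) σ ((r : ℝ) ^ (1 / 4 - δ))} ≤ η := by
  classical
  obtain ⟨q0, hq0⟩ := recG_M
  refine fin_genP (psiOK_ps j) (logC_twist logC_M) (F := fz) (fun z hz n => fz_abs_le hz n) (fun z _ n hn => fz_muc hn) hσ (gsr_M hσ)
    (fun V q => ∃ (_ : NeZero (cd j * q)) (χ : DirichletCharacter ℂ (cd j * q)), Hyp χ (ajq j q) σ V) (ajq j) (abs_ajq j) q0 ?_
    (fun q k => Squarefree k ∧ Wp (ps j) q k) (fun q k h => h.2) ?_ hδ hη
  · rintro V q hV hq ⟨_, χ, h⟩ u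
    exact hq0 (cd j * q) (hq.trans (Nat.le_mul_of_pos_left q (cd_pos j))) χ (ajq j q) σ V hV h u
  · intro q N hq
    rw [j3aP (psiM_ps j) q N hq]
    refine Finset.sum_congr ?_ fun k _ => rfl
    ext k
    simp

/-- **L side.** -/
theorem fin_LP (j : Fin 4) {σ : ℝ} (hσ : σ = 1 ∨ σ = -1) {δ η : ℝ} (hδ : 0 < δ) (hη : 0 < η) :
    ∃ (r0 : ℕ) (C0 : ℝ), 0 < C0 ∧ ∀ r : ℕ, r0 ≤ r → ∀ Q : ℕ, C0 * ((Y (150 * r) : ℕ) : ℝ) ^ 10 ≤ Q →
    (PQ Q).real {q | ∃ (_ : NeZero (cd j * q)) (χ : DirichletCharacter ℂ (cd j * q)),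
      HypL χ (ajq j q) (ljq j q) σ ((r : ℝ) ^ (1 / 4 - δ))} ≤ η := by
  classical
  obtain ⟨q0, hq0⟩ := recG_L
  refine fin_genP (psiOK_ps j) (logC_twist logC_L) (F := gz) (fun z hz n => gz_abs_le hz n) (fun z _ n hn => by rw [lac_lac hn, one_mul]) hσ
    (gsr_L hσ) (fun V q => ∃ (_ : NeZero (cd j * q)) (χ : DirichletCharacter ℂ (cd j * q)), HypL χ (ajq j q) (ljq j q) σ V) (ljq j)
    (abs_ljq j) q0 ?_ (fun q k => Wp (ps j) q k) (fun q k h => h) ?_ hδ hη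
  · rintro V q hV hq ⟨_, χ, h⟩ u
    exact hq0 (cd j * q) (hq.trans (Nat.le_mul_of_pos_left q (cd_pos j))) χ (ajq j q) (ljq j q) σ V hV h u
  · intro q N hq
    rw [j3bP (psiM_ps j) q N hq]
    refine Finset.sum_congr ?_ fun k _ => rfl
    ext k
    simp

end Pool.Agent.Helper96.DR
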