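import Pool.Agent.Helper96.DR.T0a

/-!
# Project DR, block T0: the transfer for two laws with close characteristic functions
-/

set_option autoImplicit false

namespace Pool.Agent.Helper96.DR

open Finset MeasureTheory Filter Topology Pool.Agent.Helper5.RM Pool.Agent.Helper96.AF Pool.Agent.Helper66.LW Pool.Agent.IT
open Pool.Agent.DR

theorem exp20_le (r : ℕ) : Real.exp (20 * r) ≤ 2 ^ (29 * r) := by
  have h1 : (2 : ℝ) ^ (29 * r) = Real.exp (Real.log 2 * (29 * r : ℕ)) := by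
    rw [Real.exp_mul, Real.exp_log (by norm_num), Real.rpow_natCast]
  rw [h1]
  apply Real.exp_le_exp.2
  have h2 := Real.log_two_gt_d9
  push_cast
  have h3 : (0 : ℝ) ≤ r := Nat.cast_nonneg r
  nlinarith

theorem lip_small (C : ℝ) : ∃ r0 : ℕ, ∀ r : ℕ, r0 ≤ r →
    C * (r : ℝ) ^ 60 * (Real.exp (20 * r + 1) * (4 * (1 / 2 ^ (30 * r)))) ≤ 1 := by
  have h1 : Tendsto (fun r : ℕ => (|C| * 12) * ((r : ℝ) ^ 60 / 2 ^ r)) atTop (𝓝 ((|C| * 12) * 0)) :=
    (tendsto_pow_const_div_const_pow_of_one_lt 60 (by norm_num)).const_mul _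
  rw [mul_zero] at h1
  obtain ⟨r0, h0⟩ := eventually_atTop.1 (h1.eventually_le_const one_pos)
  refine ⟨r0, fun r hr => ?_⟩
  refine le_trans ?_ (h0 r hr)
  have h2 : Real.exp (20 * r + 1) ≤ 2 ^ (29 * r) * 3 := by
    rw [Real.exp_add]
    have h3 := Real.exp_one_lt_d9
    exact mul_le_mul (exp20_le r) (by linarith) (Real.exp_pos _).le (by positivity)
  have h4 : C ≤ |C| := le_abs_self C
  have h5 : (2 : ℝ) ^ (30 * r) = 2 ^ (29 * r) * 2 ^ r := by
    rw [← pow_add]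
    congr 1
    ring
  calc C * (r : ℝ) ^ 60 * (Real.exp (20 * r + 1) * (4 * (1 / 2 ^ (30 * r))))
      ≤ |C| * (r : ℝ) ^ 60 * (2 ^ (29 * r) * 3 * (4 * (1 / 2 ^ (30 * r)))) := by gcongr
    _ = |C| * 12 * ((r : ℝ) ^ 60 / 2 ^ r) := by
        rw [h5]
        field_simp
        ring

theorem smo_small (C κ : ℝ) (hC : 0 < C) (hκ : 0 < κ) : ∃ r0 : ℕ, ∀ r : ℕ, r0 ≤ r →
    C * ((2 * NG r : ℕ) : ℝ) / (2 ^ (40 * r) / 2 * (1 / 2 ^ (30 * r))) ^ 10 +
      (C * (2 ^ (40 * r) / 2) * (20 * r)) ^ (2 * NG r) * Real.exp (-((2 : ℝ) ^ (22 * r))) ≤ κ := by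
  have h1 : Tendsto (fun r : ℕ => C * 2 ^ 11 / (2 : ℝ) ^ r) atTop (𝓝 0) :=
    tendsto_const_nhds.div_atTop (tendsto_pow_atTop_atTop_of_one_lt (by norm_num))
  have h2 : Tendsto (fun r : ℕ => (C * 10) * ((r : ℝ) ^ 1 / 2 ^ r)) atTop (𝓝 ((C * 10) * 0)) :=
    (tendsto_pow_const_div_const_pow_of_one_lt 1 (by norm_num)).const_mul _
  have h3 : Tendsto (fun r : ℕ => (83 : ℝ) * ((r : ℝ) ^ 1 / 4 ^ r)) atTop (𝓝 (83 * 0)) :=
    (tendsto_pow_const_div_const_pow_of_one_lt 1 (by norm_num)).const_mul _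
  have h4 : Tendsto (fun r : ℕ => Real.exp (-(r : ℝ))) atTop (𝓝 0) :=
    Real.tendsto_exp_neg_atTop_nhds_zero.comp tendsto_natCast_atTop_atTop
  rw [mul_zero] at h2 h3
  obtain ⟨r0, h0⟩ := eventually_atTop.1 (((h1.eventually_le_const (half_pos hκ)).and (h2.eventually_le_const one_pos)).and
    ((h3.eventually_le_const one_pos).and (h4.eventually_le_const (half_pos hκ))))
  refine ⟨max r0 1, fun r hr => ?_⟩
  obtain ⟨⟨ha, hb⟩, hc, hd⟩ := h0 r ((le_max_left _ _).trans hr)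
  have hr1 : 1 ≤ r := (le_max_right _ _).trans hr
  have hr1' : (1 : ℝ) ≤ r := by exact_mod_cast hr1
  have hx : (0 : ℝ) < 2 ^ r := by positivity
  have hx1 : (1 : ℝ) ≤ 2 ^ r := one_le_pow₀ (by norm_num)
  have e1 : C * ((2 * NG r : ℕ) : ℝ) / (2 ^ (40 * r) / 2 * (1 / 2 ^ (30 * r))) ^ 10 ≤ C * 2 ^ 11 / (2 : ℝ) ^ r := by
    have h5 : (2 : ℝ) ^ (40 * r) = (2 ^ r) ^ 40 := by rw [← pow_mul]; congr 1; ring
    have h6 : (2 : ℝ) ^ (30 * r) = (2 ^ r) ^ 30 := by rw [← pow_mul]; congr 1; ring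
    have h7 : ((2 * NG r : ℕ) : ℝ) = 2 * (2 ^ r) ^ 20 := by
      unfold NG
      push_cast
      rw [← pow_mul]
      congr 2
      ring
    rw [h5, h6, h7]
    have h8 : C * (2 * ((2 : ℝ) ^ r) ^ 20) / ((2 ^ r) ^ 40 / 2 * (1 / (2 ^ r) ^ 30)) ^ 10 = C * 2 ^ 11 / ((2 : ℝ) ^ r) ^ 80 := by
      field_simp
    rw [h8]
    apply div_le_div_of_nonneg_left (by positivity) hx
    exact le_self_pow₀ hx1 (by norm_num)
  have e2 : (C * (2 ^ (40 * r) / 2) * (20 * r)) ^ (2 * NG r) * Real.exp (-((2 : ℝ) ^ (22 * r))) ≤ Real.exp (-(r : ℝ)) := by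
    have h5 : C * (2 ^ (40 * r) / 2) * (20 * r) ≤ Real.exp (41 * r) := by
      have h6 : C * 10 * r ≤ 2 ^ r := by
        rw [pow_one, ← mul_div_assoc, div_le_iff₀ hx, one_mul] at hb
        exact hb
      have h7 : (2 : ℝ) ^ (41 * r) ≤ Real.exp (41 * r) := by
        have h8 : (2 : ℝ) ≤ Real.exp 1 := by
          have := Real.exp_one_gt_d9
          linarith
        calc (2 : ℝ) ^ (41 * r) ≤ (Real.exp 1) ^ (41 * r) := pow_le_pow_left₀ (by norm_num) h8 _
          _ = Real.exp (41 * r) := by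
            rw [← Real.exp_nat_mul]
            push_cast
            ring_nf
      refine le_trans ?_ h7
      calc C * (2 ^ (40 * r) / 2) * (20 * r) = (C * 10 * r) * 2 ^ (40 * r) := by ring
        _ ≤ 2 ^ r * 2 ^ (40 * r) := by gcongr
        _ = 2 ^ (41 * r) := by rw [← pow_add]; congr 1; ring
    have h9 : (C * (2 ^ (40 * r) / 2) * (20 * r)) ^ (2 * NG r) ≤ Real.exp (82 * r * 2 ^ (20 * r)) := by
      calc (C * (2 ^ (40 * r) / 2) * (20 * r)) ^ (2 * NG r) ≤ (Real.exp (41 * r)) ^ (2 * NG r) := pow_le_pow_left₀ (by positivity) h5 _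
        _ = Real.exp (82 * r * 2 ^ (20 * r)) := by
          rw [← Real.exp_nat_mul]
          unfold NG
          push_cast
          ring_nf
    have h10 : 83 * (r : ℝ) ≤ 4 ^ r := by
      rw [pow_one, ← mul_div_assoc, div_le_iff₀ (by positivity), one_mul] at hc
      exact hc
    have h11 : (2 : ℝ) ^ (22 * r) = 2 ^ (20 * r) * 4 ^ r := by
      rw [show (4 : ℝ) = 2 ^ 2 by norm_num, ← pow_mul, ← pow_add]
      congr 1
      ring
    calc (C * (2 ^ (40 * r) / 2) * (20 * r)) ^ (2 * NG r) * Real.exp (-((2 : ℝ) ^ (22 * r)))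
        ≤ Real.exp (82 * r * 2 ^ (20 * r)) * Real.exp (-((2 : ℝ) ^ (22 * r))) := by gcongr
      _ = Real.exp (82 * r * 2 ^ (20 * r) - 2 ^ (20 * r) * 4 ^ r) := by rw [← Real.exp_add, h11]; rfl
      _ ≤ Real.exp (-(r : ℝ)) := by
          apply Real.exp_le_exp.2
          have h12 : (1 : ℝ) ≤ 2 ^ (20 * r) := one_le_pow₀ (by norm_num)
          have h13 : 82 * (r : ℝ) - 4 ^ r ≤ -r := by linarith
          have h14 : 2 ^ (20 * r) * (82 * (r : ℝ) - 4 ^ r) ≤ 2 ^ (20 * r) * (-r) := mul_le_mul_of_nonneg_left h13 (by positivity)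
          nlinarith
  linarith

/-- the transfer for two laws with close characteristic functions -/
theorem t0_core (hSMO : StmtSMO) (K : Ker) (κ : ℝ) (hκ : 0 < κ) : ∃ r0 : ℕ, ∀ r : ℕ, r0 ≤ r →
    ∀ (a α : ℕ → ℂ) (Ω Ω' : Type) [MeasurableSpace Ω] [MeasurableSpace Ω'] (P : Measure Ω) (P' : Measure Ω') (χ : Ω → ℕ → ℂ)
    (χ' : Ω' → ℕ → ℂ), IsProbabilityMeasure P → IsProbabilityMeasure P' → (∀ n, Measurable fun ω => χ ω n) →
    (∀ n, Measurable fun ω => χ' ω n) → ∀ η : ℝ,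
    P.real {ω | ∃ i : ℕ, (i : ℝ) ≤ 1 / sr r ∧
      1 < ‖SS K r (fun n => a n * χ ω n) i - PH K r (fun j => PS r α (χ ω) (tj r j)) i‖} ≤ η →
    P.real {ω | ∃ j : ℕ, j < NG r ∧ 20 * (r : ℝ) < ‖PS r α (χ ω) (tj r j)‖} ≤ η →
    P'.real {ω | ∃ i : ℕ, (i : ℝ) ≤ 1 / sr r ∧
      1 < ‖SS K r (fun n => a n * χ' ω n) i - PH K r (fun j => PS r α (χ' ω) (tj r j)) i‖} ≤ η →
    (∀ ξ : ℕ → ℂ, (∀ j, ‖ξ j‖ ≤ 2 ^ (40 * r)) → ‖(∫ ω, Complex.exp (Complex.I * (LF r α ξ (χ ω) : ℂ)) ∂P) -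
      ∫ ω, Complex.exp (Complex.I * (LF r α ξ (χ' ω) : ℂ)) ∂P'‖ ≤ Real.exp (-((2 : ℝ) ^ (22 * r)))) →
    ∀ c : ℂ, ‖c‖ = 1 → ∀ L : ℝ,
    P.real {ω | ∀ i : ℕ, (i : ℝ) ≤ 1 / sr r → (c * SS K r (fun n => a n * χ ω n) i).re ≤ L} ≤
    P'.real {ω | ∀ i : ℕ, (i : ℝ) ≤ 1 / sr r → (c * SS K r (fun n => a n * χ' ω n) i).re ≤ L + 3} + (3 * η + κ) := by
  obtain ⟨C, hC, hS⟩ := hSMO K
  obtain ⟨C1, hC1, hlip⟩ := PH_lip K
  obtain ⟨r1, hr1⟩ := lip_small C1
  obtain ⟨r2, hr2⟩ := smo_small C κ hC hκ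
  refine ⟨max (max r1 r2) 1, fun r hr a α Ω Ω' _ _ P P' χ χ' hP hP' hm hm' η hA hB hA' hchf c hc L => ?_⟩
  have hra : r1 ≤ r := ((le_max_left _ _).trans (le_max_left _ _)).trans hr
  have hrb : r2 ≤ r := ((le_max_right _ _).trans (le_max_left _ _)).trans hr
  have hrc : 1 ≤ r := (le_max_right _ _).trans hr
  have hrc' : (1 : ℝ) ≤ r := by exact_mod_cast hrc
  set N := NG r with hN
  set zz : Ω → ℕ → ℂ := fun ω j => PS r α (χ ω) (tj r j) with hzz
  set zz' : Ω' → ℕ → ℂ := fun ω j => PS r α (χ' ω) (tj r j) with hzz'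
  have hzm : ∀ j, Measurable fun ω => zz ω j := fun j => measurable_PS r α hm _
  have hzm' : ∀ j, Measurable fun ω => zz' ω j := fun j => measurable_PS r α hm' _
  set YY : Ω → Fin (2 * N) → ℝ := fun ω => co N (zz ω) with hYY
  set YY' : Ω' → Fin (2 * N) → ℝ := fun ω => co N (zz' ω) with hYY'
  have hYm : Measurable YY := measurable_co N hzm
  have hYm' : Measurable YY' := measurable_co N hzm'
  have hμ : IsProbabilityMeasure (P.map YY) := Measure.isProbabilityMeasure_map hYm.aemeasurable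
  have hν : IsProbabilityMeasure (P'.map YY') := Measure.isProbabilityMeasure_map hYm'.aemeasurable
  set A : Set (Fin (2 * N) → ℝ) := {y | (∀ j, j < N → ‖zc y j‖ ≤ 20 * r) ∧ ∀ i : ℕ, (i : ℝ) ≤ 1 / sr r → (c * PH K r (zc y) i).re ≤ L + 1} with hAdef
  set B : Set (Fin (2 * N) → ℝ) := {y | ∀ i : ℕ, (i : ℝ) ≤ 1 / sr r → (c * PH K r (zc y) i).re ≤ L + 2} with hBdef
  have hPHm : ∀ i, Measurable fun y : Fin (2 * N) → ℝ => (c * PH K r (zc y) i).re := fun i =>
    Complex.measurable_re.comp ((measurable_PH K r i fun j => measurable_zc j).const_mul c)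
  have hset : ∀ M : ℝ, MeasurableSet {y : Fin (2 * N) → ℝ | ∀ i : ℕ, (i : ℝ) ≤ 1 / sr r → (c * PH K r (zc y) i).re ≤ M} := by
    intro M
    have h1 : {y : Fin (2 * N) → ℝ | ∀ i : ℕ, (i : ℝ) ≤ 1 / sr r → (c * PH K r (zc y) i).re ≤ M} =
        ⋂ (i : ℕ) (_ : (i : ℝ) ≤ 1 / sr r), {y | (c * PH K r (zc y) i).re ≤ M} := by
      ext y
      simp
    rw [h1]
    exact MeasurableSet.iInter fun i => MeasurableSet.iInter fun _ => measurableSet_le (hPHm i) measurable_const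
  have hBm : MeasurableSet B := hset _
  have hAm : MeasurableSet A := by
    have h1 : A = {y : Fin (2 * N) → ℝ | ∀ j, j < N → ‖zc y j‖ ≤ 20 * r} ∩
        {y : Fin (2 * N) → ℝ | ∀ i : ℕ, (i : ℝ) ≤ 1 / sr r → (c * PH K r (zc y) i).re ≤ L + 1} := rfl
    rw [h1]
    refine MeasurableSet.inter ?_ (hset _)
    have h2 : {y : Fin (2 * N) → ℝ | ∀ j, j < N → ‖zc y j‖ ≤ 20 * r} = ⋂ (j : ℕ) (_ : j < N), {y | ‖zc y j‖ ≤ 20 * r} := by
      ext y
      simp
    rw [h2]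
    exact MeasurableSet.iInter fun j => MeasurableSet.iInter fun _ => measurableSet_le (measurable_zc j).norm measurable_const
  -- the smoothing lemma
  have hR : (0 : ℝ) < 2 ^ (40 * r) / 2 := by positivity
  have hh : (0 : ℝ) < 1 / 2 ^ (30 * r) := by positivity
  have hh1 : (1 : ℝ) / 2 ^ (30 * r) ≤ 1 / 2 ^ 3 := by
    apply one_div_le_one_div_of_le (by positivity)
    exact pow_le_pow_right₀ (by norm_num) (by omega)
  have hsmo := hS (2 * N) (2 ^ (40 * r) / 2) (1 / 2 ^ (30 * r)) (20 * r) (Real.exp (-((2 : ℝ) ^ (22 * r)))) hR hh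
    (hh1.trans (by norm_num)) (by linarith) (Real.exp_pos _).le (P.map YY) (P'.map YY') hμ hν ?_ A B hAm hBm ?_ ?_
  · -- conclusion
    rw [map_measureReal_apply hYm hAm, map_measureReal_apply hYm' hBm] at hsmo
    have hsm := hr2 r hrb
    have hPH : ∀ (z : ℕ → ℂ) (i : ℕ), PH K r (zc (co N z)) i = PH K r z i := fun z i => PH_congr fun j hj => zc_co z hj
    have hre : ∀ x y : ℂ, ‖x - y‖ ≤ 1 → (c * x).re ≤ (c * y).re + 1 := by
      intro x y hxy
      have h1 : (c * x).re - (c * y).re = (c * (x - y)).re := by rw [mul_sub, Complex.sub_re]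
      have h2 := (Complex.abs_re_le_norm (c * (x - y)))
      rw [norm_mul, hc, one_mul] at h2
      have h3 := le_abs_self (c * (x - y)).re
      linarith
    have s1 : {ω | ∀ i : ℕ, (i : ℝ) ≤ 1 / sr r → (c * SS K r (fun n => a n * χ ω n) i).re ≤ L} ⊆
        YY ⁻¹' A ∪ ({ω | ∃ i : ℕ, (i : ℝ) ≤ 1 / sr r ∧ 1 < ‖SS K r (fun n => a n * χ ω n) i - PH K r (fun j => PS r α (χ ω) (tj r j)) i‖} ∪
          {ω | ∃ j : ℕ, j < N ∧ 20 * (r : ℝ) < ‖PS r α (χ ω) (tj r j)‖}) := by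
      intro ω hω
      by_cases h1 : ∃ i : ℕ, (i : ℝ) ≤ 1 / sr r ∧ 1 < ‖SS K r (fun n => a n * χ ω n) i - PH K r (fun j => PS r α (χ ω) (tj r j)) i‖
      · exact Or.inr (Or.inl h1)
      by_cases h2 : ∃ j : ℕ, j < N ∧ 20 * (r : ℝ) < ‖PS r α (χ ω) (tj r j)‖
      · exact Or.inr (Or.inr h2)
      left
      push Not at h1 h2
      refine ⟨fun j hj => ?_, fun i hi => ?_⟩
      · show ‖zc (co N (zz ω)) j‖ ≤ 20 * r
        rw [zc_co _ hj]
        exact h2 j hj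
      · show (c * PH K r (zc (co N (zz ω))) i).re ≤ L + 1
        rw [hPH]
        have h3 := hre (PH K r (zz ω) i) (SS K r (fun n => a n * χ ω n) i) (by rw [norm_sub_rev]; exact h1 i hi)
        have h4 := hω i hi
        linarith
    have s2 : YY' ⁻¹' B ⊆ {ω | ∀ i : ℕ, (i : ℝ) ≤ 1 / sr r → (c * SS K r (fun n => a n * χ' ω n) i).re ≤ L + 3} ∪
        {ω | ∃ i : ℕ, (i : ℝ) ≤ 1 / sr r ∧ 1 < ‖SS K r (fun n => a n * χ' ω n) i - PH K r (fun j => PS r α (χ' ω) (tj r j)) i‖} := by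
      intro ω hω
      by_cases h1 : ∃ i : ℕ, (i : ℝ) ≤ 1 / sr r ∧ 1 < ‖SS K r (fun n => a n * χ' ω n) i - PH K r (fun j => PS r α (χ' ω) (tj r j)) i‖
      · exact Or.inr h1
      left
      push Not at h1
      intro i hi
      have h2 : (c * PH K r (zc (co N (zz' ω))) i).re ≤ L + 2 := hω i hi
      rw [hPH] at h2
      have h3 := hre (SS K r (fun n => a n * χ' ω n) i) (PH K r (zz' ω) i) (h1 i hi)
      linarith
    have m1 := (measureReal_mono s1 (measure_ne_top P _)).trans ((measureReal_union_le _ _).trans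
      (add_le_add_right (measureReal_union_le (μ := P) _ _) _))
    have m2 := (measureReal_mono s2 (measure_ne_top P' _)).trans (measureReal_union_le _ _)
    linarith
  · -- characteristic functions
    intro ξ hξ
    have hint : ∀ (Ω0 : Type) [MeasurableSpace Ω0] (Q : Measure Ω0) (ψ : Ω0 → ℕ → ℂ) (hψ : ∀ n, Measurable fun ω => ψ ω n),
        ∫ y, Complex.exp (Complex.I * ((∑ k, ξ k * y k : ℝ) : ℂ)) ∂(Q.map (fun ω => co N (fun j => PS r α (ψ ω) (tj r j)))) =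
        ∫ ω, Complex.exp (Complex.I * (LF r α (zc ξ) (ψ ω) : ℂ)) ∂Q := by
      intro Ω0 _ Q ψ hψ
      rw [integral_map]
      · refine integral_congr_ae (Filter.Eventually.of_forall fun ω => ?_)
        simp only
        rw [sum_co]
        rfl
      · exact (measurable_co N fun j => measurable_PS r α hψ _).aemeasurable
      · refine Measurable.aestronglyMeasurable ?_
        refine Complex.measurable_exp.comp (Measurable.const_mul (Complex.measurable_ofReal.comp ?_) _)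
        exact Finset.measurable_fun_sum _ fun k _ => (measurable_pi_apply k).const_mul _
    have h1 := hint Ω P χ hm
    have h2 := hint Ω' P' χ' hm'
    rw [hYY, hYY', hzz, hzz', h1, h2]
    refine hchf (zc ξ) fun j => ?_
    have h3 := zc_norm_le hR.le hξ j
    linarith
  · intro y hy k
    exact abs_ex_le_norm y hy.1 k
  · intro y hy y' hy' i hi
    have h1 := hlip r hrc (zc y') (zc y) (20 * r + 1) (4 * (1 / 2 ^ (30 * r))) ?_ ?_ ?_ i
    · have h2 := h1.trans (hr1 r hra)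
      have h3 := hy.2 i hi
      have h4 : (c * PH K r (zc y') i).re - (c * PH K r (zc y) i).re = (c * (PH K r (zc y') i - PH K r (zc y) i)).re := by
        rw [mul_sub, Complex.sub_re]
      have h5 := Complex.abs_re_le_norm (c * (PH K r (zc y') i - PH K r (zc y) i))
      rw [norm_mul, hc, one_mul] at h5
      have h6 := le_abs_self (c * (PH K r (zc y') i - PH K r (zc y) i)).re
      linarith
    · intro j hj
      have h2 := zc_sub_le (by positivity) hy' j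
      have h3 := hy.1 j hj
      have h4 := norm_sub_norm_le (zc y' j) (zc y j)
      have h5 : 2 * (2 * (1 / 2 ^ (30 * r))) ≤ (1 : ℝ) := by linarith
      linarith
    · intro j hj
      have h3 := hy.1 j hj
      linarith
    · intro j hj
      have h2 := zc_sub_le (by positivity) hy' j
      linarith

end Pool.Agent.Helper96.DR
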