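import Pool.Agent.Helper96.DR.APX

/-!
# Project DR, block T0, first part: the functionals are Lipschitz, the coordinates as a real vector
-/

set_option autoImplicit false

namespace Pool.Agent.Helper96.DR

open Finset MeasureTheory Filter Topology Pool.Agent.Helper5.RM Pool.Agent.Helper96.AF Pool.Agent.Helper66.LW Pool.Agent.IT
open Pool.Agent.DR

theorem pow_sub_le {z w : ℂ} {B : ℝ} (hz : ‖z‖ ≤ B) (hw : ‖w‖ ≤ B) (k : ℕ) :
    ‖z ^ (k + 1) - w ^ (k + 1)‖ ≤ (k + 1) * B ^ k * ‖z - w‖ := by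
  have hB : 0 ≤ B := (norm_nonneg _).trans hz
  induction k with
  | zero => simp
  | succ k ih =>
    have h1 : z ^ (k + 1 + 1) - w ^ (k + 1 + 1) = z * (z ^ (k + 1) - w ^ (k + 1)) + (z - w) * w ^ (k + 1) := by ring
    rw [h1]
    have h2 : ‖z * (z ^ (k + 1) - w ^ (k + 1))‖ ≤ B * ((k + 1) * B ^ k * ‖z - w‖) := by
      rw [norm_mul]
      exact mul_le_mul hz ih (norm_nonneg _) hB
    have h3 : ‖(z - w) * w ^ (k + 1)‖ ≤ ‖z - w‖ * B ^ (k + 1) := by
      rw [norm_mul, norm_pow]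
      exact mul_le_mul_of_nonneg_left (pow_le_pow_left₀ (norm_nonneg _) hw _) (norm_nonneg _)
    refine (norm_add_le _ _).trans ((add_le_add h2 h3).trans (le_of_eq ?_))
    push_cast
    ring

theorem TE_lip (r : ℕ) {z w : ℂ} {B : ℝ} (hz : ‖z‖ ≤ B) (hw : ‖w‖ ≤ B) : ‖TE r z - TE r w‖ ≤ Real.exp B * ‖z - w‖ := by
  have hB : 0 ≤ B := (norm_nonneg _).trans hz
  unfold TE
  rw [← Finset.sum_sub_distrib, Finset.sum_range_succ']
  simp only [pow_zero, sub_self, add_zero]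
  refine (norm_sum_le _ _).trans ?_
  have h1 : ∀ k ∈ Finset.range (2 ^ (r + 1)), ‖z ^ (k + 1) / ((k + 1).factorial : ℂ) - w ^ (k + 1) / ((k + 1).factorial : ℂ)‖ ≤
      B ^ k / (k.factorial : ℝ) * ‖z - w‖ := by
    intro k _
    rw [← sub_div, norm_div, Complex.norm_natCast, div_le_iff₀ (by positivity)]
    refine (pow_sub_le hz hw k).trans (le_of_eq ?_)
    rw [Nat.factorial_succ]
    push_cast
    have h2 : (k.factorial : ℝ) ≠ 0 := by positivity
    field_simp
  refine (Finset.sum_le_sum h1).trans ?_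
  rw [← Finset.sum_mul]
  exact mul_le_mul_of_nonneg_right (Real.sum_le_exp_of_nonneg hB _) (norm_nonneg _)

theorem rho_bdd (K : Ker) : ∃ C : ℝ, 0 < C ∧ ∀ t, K.ρ t ≤ C := by
  have h1 : HasCompactSupport K.ρ := by
    refine HasCompactSupport.intro (isCompact_Icc (a := (-1 / 4 : ℝ)) (b := 1 / 4)) fun t ht => K.ρ_supp t ?_
    rw [Set.mem_Icc, not_and_or] at ht
    rw [le_abs]
    rcases ht with ht | ht
    · right
      linarith
    · left
      linarith
  obtain ⟨C, hC⟩ := h1.exists_bound_of_continuous K.ρ_smooth.continuous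
  refine ⟨|C| + 1, by positivity, fun t => ?_⟩
  have := hC t
  have h2 := le_abs_self (K.ρ t)
  rw [Real.norm_eq_abs] at this
  have h3 := le_abs_self C
  linarith

theorem exp_sr_Ur {r : ℕ} (hr : 1 ≤ r) : Real.exp (sr r * Ur r) = (r : ℝ) ^ 60 := by
  have h1 : sr r * Ur r = Real.log r * 60 := by
    unfold Ur
    have := sr_mul_Vr r
    linarith
  rw [h1, Real.exp_mul, Real.exp_log (by exact_mod_cast hr)]
  exact_mod_cast Real.rpow_natCast (r : ℝ) 60

theorem sr_nonneg (r : ℕ) : 0 ≤ sr r := by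
  unfold sr
  have := Vr_pos r
  have := Real.log_natCast_nonneg r
  positivity

theorem cij_le (K : Ker) : ∃ C : ℝ, 0 < C ∧ ∀ r : ℕ, 1 ≤ r → ∀ i j : ℕ, ‖cij K r i j‖ ≤ C * (r : ℝ) ^ 60 / NG r := by
  obtain ⟨C, hC, hρ⟩ := rho_bdd K
  refine ⟨C, hC, fun r hr i j => ?_⟩
  have hN : (0 : ℝ) < NG r := by
    unfold NG
    positivity
  unfold cij
  rw [norm_div, norm_mul, Complex.norm_real, Real.norm_eq_abs, abs_of_nonneg (by
    have := K.ρ_nonneg (tj r j)
    have := Real.exp_pos (sr r * Ur r)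
    positivity), mul_comm Complex.I, Complex.norm_exp_ofReal_mul_I, mul_one, exp_sr_Ur hr]
  have h1 : (1 / 2 : ℝ) ≤ ‖((1 / 2 + sr r : ℝ) : ℂ) + Complex.I * (tj r j : ℂ)‖ := by
    have h2 := Complex.abs_re_le_norm (((1 / 2 + sr r : ℝ) : ℂ) + Complex.I * (tj r j : ℂ))
    have h3 : (((1 / 2 + sr r : ℝ) : ℂ) + Complex.I * (tj r j : ℂ)).re = 1 / 2 + sr r := by simp
    rw [h3] at h2
    have h4 := le_abs_self (1 / 2 + sr r)
    have h5 := sr_nonneg r
    linarith
  rw [div_div, div_le_div_iff₀ (by positivity) hN]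
  have h3 := hρ (tj r j)
  have h4 := K.ρ_nonneg (tj r j)
  have h5 : (0 : ℝ) ≤ (r : ℝ) ^ 60 := by positivity
  calc (r : ℝ) ^ 60 * K.ρ (tj r j) * NG r ≤ (r : ℝ) ^ 60 * C * NG r := by gcongr
    _ = C * (r : ℝ) ^ 60 * (2 * NG r * (1 / 2)) := by ring
    _ ≤ C * (r : ℝ) ^ 60 * (2 * NG r * ‖((1 / 2 + sr r : ℝ) : ℂ) + Complex.I * (tj r j : ℂ)‖) := by gcongr

theorem PH_lip (K : Ker) : ∃ C : ℝ, 0 < C ∧ ∀ r : ℕ, 1 ≤ r → ∀ (z w : ℕ → ℂ) (B e : ℝ), (∀ j, j < NG r → ‖z j‖ ≤ B) →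
    (∀ j, j < NG r → ‖w j‖ ≤ B) → (∀ j, j < NG r → ‖z j - w j‖ ≤ e) → ∀ i : ℕ,
    ‖PH K r z i - PH K r w i‖ ≤ C * (r : ℝ) ^ 60 * (Real.exp B * e) := by
  obtain ⟨C, hC, hc⟩ := cij_le K
  refine ⟨C, hC, fun r hr z w B e hz hw he i => ?_⟩
  have hN : (0 : ℝ) < NG r := by
    unfold NG
    positivity
  unfold PH
  rw [← Finset.sum_sub_distrib]
  refine (norm_sum_le _ _).trans ?_
  calc ∑ j ∈ Finset.range (NG r), ‖cij K r i j * TE r (z j) - cij K r i j * TE r (w j)‖
      ≤ ∑ j ∈ Finset.range (NG r), C * (r : ℝ) ^ 60 / NG r * (Real.exp B * e) := by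
        refine Finset.sum_le_sum fun j hj => ?_
        rw [Finset.mem_range] at hj
        rw [← mul_sub, norm_mul]
        refine mul_le_mul (hc r hr i j) ?_ (norm_nonneg _) (by positivity)
        exact (TE_lip r (hz j hj) (hw j hj)).trans (mul_le_mul_of_nonneg_left (he j hj) (Real.exp_pos _).le)
    _ = C * (r : ℝ) ^ 60 * (Real.exp B * e) := by
        rw [Finset.sum_const, Finset.card_range, nsmul_eq_mul]
        field_simp

/-! ### the coordinates -/

/-- extension by zero -/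
noncomputable def ex {N : ℕ} (y : Fin (2 * N) → ℝ) (k : ℕ) : ℝ := if h : k < 2 * N then y ⟨k, h⟩ else 0

/-- a real vector as complex numbers -/
noncomputable def zc {N : ℕ} (y : Fin (2 * N) → ℝ) (j : ℕ) : ℂ := (ex y (2 * j) : ℂ) + Complex.I * (ex y (2 * j + 1) : ℂ)

/-- complex numbers as a real vector -/
noncomputable def co (N : ℕ) (z : ℕ → ℂ) (k : Fin (2 * N)) : ℝ := if (k : ℕ) % 2 = 0 then (z (k / 2)).re else (z (k / 2)).im

theorem ex_of_fin {N : ℕ} (y : Fin (2 * N) → ℝ) (k : Fin (2 * N)) : ex y k = y k := by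
  unfold ex
  rw [dif_pos k.2]

theorem ex_le {N : ℕ} {y : Fin (2 * N) → ℝ} {R : ℝ} (hR : 0 ≤ R) (h : ∀ k, |y k| ≤ R) (k : ℕ) : |ex y k| ≤ R := by
  unfold ex
  split_ifs with hk
  · exact h _
  · rwa [abs_zero]

theorem ex_sub_le {N : ℕ} {y y' : Fin (2 * N) → ℝ} {R : ℝ} (hR : 0 ≤ R) (h : ∀ k, |y' k - y k| ≤ R) (k : ℕ) : |ex y' k - ex y k| ≤ R := by
  unfold ex
  split_ifs with hk
  · exact h _
  · rwa [sub_self, abs_zero]

theorem zc_norm_le {N : ℕ} {y : Fin (2 * N) → ℝ} {R : ℝ} (hR : 0 ≤ R) (h : ∀ k, |y k| ≤ R) (j : ℕ) : ‖zc y j‖ ≤ 2 * R := by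
  unfold zc
  refine (norm_add_le _ _).trans ?_
  rw [norm_mul, Complex.norm_I, one_mul, Complex.norm_real, Complex.norm_real, Real.norm_eq_abs, Real.norm_eq_abs]
  have h1 := ex_le hR h (2 * j)
  have h2 := ex_le hR h (2 * j + 1)
  linarith

theorem zc_sub_le {N : ℕ} {y y' : Fin (2 * N) → ℝ} {R : ℝ} (hR : 0 ≤ R) (h : ∀ k, |y' k - y k| ≤ R) (j : ℕ) :
    ‖zc y' j - zc y j‖ ≤ 2 * R := by
  have h0 : zc y' j - zc y j = ((ex y' (2 * j) - ex y (2 * j) : ℝ) : ℂ) + Complex.I * ((ex y' (2 * j + 1) - ex y (2 * j + 1) : ℝ) : ℂ) := by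
    unfold zc
    push_cast
    ring
  rw [h0]
  refine (norm_add_le _ _).trans ?_
  rw [norm_mul, Complex.norm_I, one_mul, Complex.norm_real, Complex.norm_real, Real.norm_eq_abs, Real.norm_eq_abs]
  have h1 := ex_sub_le hR h (2 * j)
  have h2 := ex_sub_le hR h (2 * j + 1)
  linarith

theorem abs_ex_le_norm {N : ℕ} (y : Fin (2 * N) → ℝ) {R : ℝ} (h : ∀ j, j < N → ‖zc y j‖ ≤ R) (k : Fin (2 * N)) : |y k| ≤ R := by
  have hre : ∀ j, (zc y j).re = ex y (2 * j) := by intro j; simp [zc]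
  have him : ∀ j, (zc y j).im = ex y (2 * j + 1) := by intro j; simp [zc]
  have hk := k.2
  have hj : (k : ℕ) / 2 < N := by omega
  have h1 := h _ hj
  rw [← ex_of_fin y k]
  rcases Nat.mod_two_eq_zero_or_one (k : ℕ) with h2 | h2
  · have h3 : (k : ℕ) = 2 * ((k : ℕ) / 2) := by omega
    rw [h3, ← hre]
    exact (Complex.abs_re_le_norm _).trans h1
  · have h3 : (k : ℕ) = 2 * ((k : ℕ) / 2) + 1 := by omega
    rw [h3, ← him]
    exact (Complex.abs_im_le_norm _).trans h1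

theorem zc_co {N : ℕ} (z : ℕ → ℂ) {j : ℕ} (hj : j < N) : zc (co N z) j = z j := by
  have h1 : ex (co N z) (2 * j) = (z j).re := by
    unfold ex co
    rw [dif_pos (by omega)]
    simp only [Nat.mul_mod_right, if_true]
    rw [Nat.mul_div_cancel_left _ (by norm_num)]
  have h2 : ex (co N z) (2 * j + 1) = (z j).im := by
    unfold ex co
    rw [dif_pos (by omega)]
    simp only
    rw [if_neg (by omega), show (2 * j + 1) / 2 = j by omega]
  unfold zc
  rw [h1, h2, mul_comm]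
  exact Complex.re_add_im _

theorem sum_range_two_mul (F : ℕ → ℝ) (N : ℕ) : ∑ k ∈ Finset.range (2 * N), F k = ∑ j ∈ Finset.range N, (F (2 * j) + F (2 * j + 1)) := by
  induction N with
  | zero => simp
  | succ N ih =>
    rw [show 2 * (N + 1) = 2 * N + 1 + 1 by ring, Finset.sum_range_succ, Finset.sum_range_succ, ih, Finset.sum_range_succ]
    ring

theorem sum_co {N : ℕ} (ξ : Fin (2 * N) → ℝ) (z : ℕ → ℂ) :
    ∑ k, ξ k * co N z k = ∑ j ∈ Finset.range N, ((starRingEnd ℂ) (zc ξ j) * z j).re := by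
  have h1 : ∑ k, ξ k * co N z k = ∑ k : Fin (2 * N), (fun k : ℕ => ex ξ k * (if k % 2 = 0 then (z (k / 2)).re else (z (k / 2)).im)) k := by
    refine Finset.sum_congr rfl fun k _ => ?_
    simp only [co, ex_of_fin]
  rw [h1, Fin.sum_univ_eq_sum_range (fun k : ℕ => ex ξ k * (if k % 2 = 0 then (z (k / 2)).re else (z (k / 2)).im)) (2 * N), sum_range_two_mul]
  refine Finset.sum_congr rfl fun j _ => ?_
  simp only [Nat.mul_mod_right, if_true]
  rw [Nat.mul_div_cancel_left _ (by norm_num), if_neg (by omega), show (2 * j + 1) / 2 = j by omega]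
  simp [zc]

theorem measurable_ex {N : ℕ} (k : ℕ) : Measurable fun y : Fin (2 * N) → ℝ => ex y k := by
  unfold ex
  split_ifs with hk
  · exact measurable_pi_apply _
  · exact measurable_const

theorem measurable_zc {N : ℕ} (j : ℕ) : Measurable fun y : Fin (2 * N) → ℝ => zc y j := by
  unfold zc
  exact (Complex.measurable_ofReal.comp (measurable_ex _)).add ((Complex.measurable_ofReal.comp (measurable_ex _)).const_mul _)

theorem measurable_TE {Ω : Type} [MeasurableSpace Ω] (r : ℕ) {z : Ω → ℂ} (hz : Measurable z) : Measurable fun ω => TE r (z ω) := by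
  unfold TE
  exact Finset.measurable_fun_sum _ fun k _ => (hz.pow_const k).div_const _

theorem measurable_PH {Ω : Type} [MeasurableSpace Ω] (K : Ker) (r i : ℕ) {z : Ω → ℕ → ℂ} (hz : ∀ j, Measurable fun ω => z ω j) :
    Measurable fun ω => PH K r (z ω) i := by
  unfold PH
  exact Finset.measurable_fun_sum _ fun j _ => (measurable_TE r (hz j)).const_mul _

theorem measurable_PS {Ω : Type} [MeasurableSpace Ω] (r : ℕ) (α : ℕ → ℂ) {g : Ω → ℕ → ℂ} (hg : ∀ n, Measurable fun ω => g ω n) (τ : ℝ) :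
    Measurable fun ω => PS r α (g ω) τ := by
  unfold PS
  exact Finset.measurable_fun_sum _ fun n _ => ((hg n).const_mul _).mul_const _

theorem measurable_co {Ω : Type} [MeasurableSpace Ω] (N : ℕ) {z : Ω → ℕ → ℂ} (hz : ∀ j, Measurable fun ω => z ω j) :
    Measurable fun ω => co N (z ω) := by
  refine measurable_pi_lambda _ fun k => ?_
  unfold co
  split_ifs
  · exact Complex.measurable_re.comp (hz _)
  · exact Complex.measurable_im.comp (hz _)

theorem PH_congr {K : Ker} {r i : ℕ} {z w : ℕ → ℂ} (h : ∀ j, j < NG r → z j = w j) : PH K r z i = PH K r w i := by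
  unfold PH
  refine Finset.sum_congr rfl fun j hj => ?_
  rw [h j (Finset.mem_range.1 hj)]

end Pool.Agent.Helper96.DR
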